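import Pool.Agent.helper53.AU.Defs

/-!
# Project au: top level statements
-/

namespace Pool.Agent.helper53.AU

open scoped Classical

/-- the group theoretic part -/
def GRP_stmt : Prop := ∀ (k G X : Type) [Field k] [CharP k 3] [Group G] [Fintype G]
  [MulAction G X] [Fintype X] (l : ℕ), Special l → Ram k G X (l + 1) → Nat.card G ≤ 8 * (l + 1)

/-- the geometric part -/
def GEO_stmt : Prop := ∀ (k F : Type) [Field k] [IsAlgClosed k] [CharP k 3] [Field F] [Algebra k F]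
  (g : ℕ), IsFF k F → IsGenus k F g → 2 ≤ g → ∀ (G : Subgroup (F ≃ₐ[k] F)) [Fintype G],
  ∃ (X : Type) (_ : MulAction G X) (_ : Fintype X), Nonempty (Ram k G X g)

/-- over an algebraic closure of the prime field it is enough to bound finite subgroups -/
def FIN_stmt : Prop := ∀ (F : Type) [Field F] [Algebra (AlgebraicClosure (ZMod 3)) F] (g m : ℕ),
  IsFF (AlgebraicClosure (ZMod 3)) F → IsGenus (AlgebraicClosure (ZMod 3)) F g →
  (∀ G : Subgroup (F ≃ₐ[AlgebraicClosure (ZMod 3)] F), Finite G → Nat.card G ≤ m) →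
  ENat.card (F ≃ₐ[AlgebraicClosure (ZMod 3)] F) ≤ (m : ℕ∞)

/-- the two families of curves -/
def LOW_stmt : Prop := ∀ g : ℕ, 2 ≤ g → ((8 * g : ℕ) : ℕ∞) ≤ mu 3 g

/-- infinitely many special genera -/
def NT_stmt : Prop := {l : ℕ | Special l}.Infinite

/-- the final result -/
def Final_stmt : Prop :=
  (∀ g : ℕ, 2 ≤ g → ((8 * g : ℕ) : ℕ∞) ≤ mu 3 g) ∧
  {g : ℕ | 2 ≤ g ∧ mu 3 g = ((8 * g : ℕ) : ℕ∞)}.Infinite ∧
  Admissible 3 (8 * Polynomial.X) ∧
  (8 * Polynomial.X : Polynomial ℚ) ≠ 8 * (Polynomial.X + 1)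

theorem final_of (hGRP : GRP_stmt) (hGEO : GEO_stmt) (hFIN : FIN_stmt) (hLOW : LOW_stmt)
    (hNT : NT_stmt) : Final_stmt := by
  have key : ∀ l : ℕ, Special l → mu 3 (l + 1) = ((8 * (l + 1) : ℕ) : ℕ∞) := by
    intro l hl
    have hlarge := hl.large
    apply le_antisymm
    · unfold mu
      refine iSup_le fun F => iSup_le fun iF => iSup_le fun iA => iSup_le fun h => ?_
      refine hFIN F (l + 1) (8 * (l + 1)) h.1 h.2 ?_
      intro G hG
      haveI : Fintype G := Fintype.ofFinite G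
      haveI : CharP (AlgebraicClosure (ZMod 3)) 3 := inferInstance
      obtain ⟨X, iX, fX, ⟨R⟩⟩ := hGEO (AlgebraicClosure (ZMod 3)) F (l + 1) h.1 h.2 (by omega) G
      exact hGRP (AlgebraicClosure (ZMod 3)) G X l hl R
    · exact hLOW (l + 1) (by omega)
  have hinf : {g : ℕ | 2 ≤ g ∧ mu 3 g = ((8 * g : ℕ) : ℕ∞)}.Infinite := by
    have h1 : ((fun l : ℕ => l + 1) '' {l : ℕ | Special l}).Infinite :=
      hNT.image (fun a _ b _ h => by simpa using h)
    refine h1.mono ?_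
    rintro g ⟨l, hl, rfl⟩
    have hlarge := (show Special l from hl).large
    exact ⟨by simp only; omega, key l hl⟩
  refine ⟨hLOW, hinf, ⟨?_, ?_⟩, ?_⟩
  · intro g hg m hm
    have h1 : ((8 * g : ℕ) : ℕ∞) ≤ (m : ℕ∞) := (hLOW g hg).trans hm
    have h2 : 8 * g ≤ m := by exact_mod_cast h1
    have h3 : ((8 * g : ℕ) : ℚ) ≤ (m : ℚ) := by exact_mod_cast h2
    simpa using h3
  · refine hinf.mono ?_
    rintro g ⟨hg, h⟩
    refine ⟨hg, 8 * g, h, ?_⟩
    simp
  · intro h
    have := congrArg (Polynomial.eval 0) h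
    simp at this

end Pool.Agent.helper53.AU
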