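import Pool.Agent.helper87.AU.SpecQ2

/-! # Project au, module QG: the term of `Ram` -/

namespace Pool.Agent.helper53.AU

open scoped Classical
open MulAction (stabilizer)

noncomputable section

variable {k F : Type} [Field k] [Field F] [Algebra k F]

/-- the places with nontrivial stabiliser -/
def QG_X (G : Subgroup (F ≃ₐ[k] F)) : Type := {P : Place k F // ∃ s ∈ G, s ≠ 1 ∧ s • P = P}

instance QG_act (G : Subgroup (F ≃ₐ[k] F)) : MulAction G (QG_X G) where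
  smul a x := ⟨(a : F ≃ₐ[k] F) • x.1, by
    obtain ⟨s, hs, h1, h2⟩ := x.2
    refine ⟨(a : F ≃ₐ[k] F) * s * (a : F ≃ₐ[k] F)⁻¹,
      G.mul_mem (G.mul_mem a.2 hs) (G.inv_mem a.2), ?_, ?_⟩
    · intro h
      apply h1
      have h3 : s = (a : F ≃ₐ[k] F)⁻¹ * ((a : F ≃ₐ[k] F) * s * (a : F ≃ₐ[k] F)⁻¹) * a := by group
      rw [h] at h3
      rw [h3]; group
    · rw [← mul_smul, inv_mul_cancel_right, mul_smul, h2]⟩
  one_smul x := by
    apply Subtype.ext
    exact one_smul (F ≃ₐ[k] F) x.1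
  mul_smul a b x := by
    apply Subtype.ext
    exact mul_smul (a : F ≃ₐ[k] F) (b : F ≃ₐ[k] F) x.1

theorem QG_val (G : Subgroup (F ≃ₐ[k] F)) (a : G) (x : QG_X G) :
    (a • x).1 = (a : F ≃ₐ[k] F) • x.1 := rfl

theorem QG_fix (G : Subgroup (F ≃ₐ[k] F)) (a : G) (x : QG_X G) :
    a • x = x ↔ (a : F ≃ₐ[k] F) • x.1 = x.1 := by
  rw [← QG_val]
  exact Subtype.ext_iff

/-- the jumps -/
def QG_i (G : Subgroup (F ≃ₐ[k] F)) (x : QG_X G) (s : G) : ℕ :=
  if (s : F ≃ₐ[k] F) • x.1 = x.1 then x.1.jump (s : F ≃ₐ[k] F) else 0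

theorem QG_i_eq (G : Subgroup (F ≃ₐ[k] F)) (x : QG_X G) (s : G)
    (h : (s : F ≃ₐ[k] F) • x.1 = x.1) : QG_i G x s = x.1.jump (s : F ≃ₐ[k] F) := if_pos h

theorem QG_sum {A M : Type} [Group A] [AddCommMonoid M] (G : Subgroup A) [Fintype G]
    (W : Subgroup G) (f : A → M) :
    ∑ᶠ s : (W.map G.subtype), f s = ∑ s ∈ Finset.univ.filter (fun s : G => s ∈ W), f s := by
  have e := W.equivMapOfInjective G.subtype G.subtype_injective
  have h1 : ∑ᶠ s : (W.map G.subtype), f s =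
      ∑ᶠ w : W, f ((W.equivMapOfInjective G.subtype G.subtype_injective w : W.map G.subtype) : A) :=
    (finsum_comp_equiv (W.equivMapOfInjective G.subtype G.subtype_injective).toEquiv).symm
  rw [h1]
  have : Fintype W := Fintype.ofFinite _
  rw [finsum_eq_sum_of_fintype,
    Finset.sum_subtype (Finset.univ.filter (fun s : G => s ∈ W)) (p := fun s : G => s ∈ W)
      (fun s => by simp) (fun s : G => f (s : A))]
  rfl

theorem QG_finite (hF11 : QF11_stmt) [IsAlgClosed k] (hF : IsFF k F) (G : Subgroup (F ≃ₐ[k] F))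
    [Finite G] : Finite (QG_X G) := by
  have h1 : {P : Place k F | ∃ s ∈ G, s ≠ 1 ∧ s • P = P}.Finite := by
    have h2 : {P : Place k F | ∃ s ∈ G, s ≠ 1 ∧ s • P = P} =
        ⋃ s ∈ {s : F ≃ₐ[k] F | s ∈ G ∧ s ≠ 1}, {P : Place k F | s • P = P} := by
      ext P
      simp only [Set.mem_iUnion, exists_prop, Set.mem_ofPred_eq, and_assoc]
    rw [h2]
    refine Set.Finite.biUnion ?_ ?_
    · exact (Set.toFinite (G : Set (F ≃ₐ[k] F))).subset fun s hs => hs.1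
    · intro s hs
      exact hF11 k F hF s hs.2
  exact h1.to_subtype

/-- the character on the cotangent line -/
def QG_θ (hF2 : QF2_stmt) (hF3 : QF3_stmt) [IsAlgClosed k] (hF : IsFF k F)
    (G : Subgroup (F ≃ₐ[k] F)) (x : QG_X G) : stabilizer G x →* kˣ where
  toFun s := Units.mk0 (x.1.theta ((s : G) : F ≃ₐ[k] F))
    (hF2 k F hF x.1 _ ((QG_fix G s x).1 s.2)).1
  map_one' := by
    apply Units.ext
    exact ((hF2 k F hF x.1 1 (one_smul _ _)).2.2.2).2 (Or.inl rfl)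
  map_mul' s t := by
    apply Units.ext
    exact (hF3 k F hF x.1).1 _ _ ((QG_fix G s x).1 s.2) ((QG_fix G t x).1 t.2)

theorem QG_θ_val (hF2 : QF2_stmt) (hF3 : QF3_stmt) [IsAlgClosed k] (hF : IsFF k F)
    (G : Subgroup (F ≃ₐ[k] F)) (x : QG_X G) (s : stabilizer G x) :
    ((QG_θ hF2 hF3 hF G x s : kˣ) : k) = x.1.theta ((s : G) : F ≃ₐ[k] F) := rfl

theorem QG_θ_pow (hF2 : QF2_stmt) (hF3 : QF3_stmt) [IsAlgClosed k] (hF : IsFF k F)
    (G : Subgroup (F ≃ₐ[k] F)) (x : QG_X G) (s : stabilizer G x) (n : ℕ) :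
    (QG_θ hF2 hF3 hF G x s) ^ n = 1 ↔ (x.1.theta ((s : G) : F ≃ₐ[k] F)) ^ n = 1 := by
  rw [Units.ext_iff, Units.val_pow_eq_pow_val, QG_θ_val, Units.val_one]

theorem QG_mem_P (hF2 : QF2_stmt) (hF3 : QF3_stmt) [IsAlgClosed k] (hF : IsFF k F)
    (G : Subgroup (F ≃ₐ[k] F)) (x : QG_X G) (s : G) :
    s ∈ ((QG_θ hF2 hF3 hF G x).ker).map (stabilizer G x).subtype ↔
      (s : F ≃ₐ[k] F) • x.1 = x.1 ∧ x.1.theta (s : F ≃ₐ[k] F) = 1 := by
  constructor
  · rintro ⟨t, ht, rfl⟩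
    have h1 := (QG_fix G t x).1 t.2
    refine ⟨h1, ?_⟩
    have h2 : QG_θ hF2 hF3 hF G x t = 1 := ht
    have h3 := QG_θ_val hF2 hF3 hF G x t
    rw [h2, Units.val_one] at h3
    exact h3.symm
  · rintro ⟨h1, h2⟩
    refine ⟨⟨s, (QG_fix G s x).2 h1⟩, ?_, rfl⟩
    show QG_θ hF2 hF3 hF G x _ = 1
    apply Units.ext
    rw [QG_θ_val, Units.val_one]
    exact h2

theorem QG_conj_fix (G : Subgroup (F ≃ₐ[k] F)) (a s : G) (x : QG_X G) :
    ((a * s * a⁻¹ : G) : F ≃ₐ[k] F) • (a • x).1 = (a • x).1 ↔ (s : F ≃ₐ[k] F) • x.1 = x.1 := by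
  rw [QG_val]
  have h1 : ((a * s * a⁻¹ : G) : F ≃ₐ[k] F) • (a : F ≃ₐ[k] F) • x.1 =
      (a : F ≃ₐ[k] F) • (s : F ≃ₐ[k] F) • x.1 := by
    rw [← mul_smul, ← mul_smul]
    congr 1
    simp
  rw [h1]
  exact smul_left_cancel_iff _

theorem QG_RH (hH4 : QH4_stmt) [IsAlgClosed k] (hF : IsFF k F) (g : ℕ)
    (hg : IsGenus k F g) (G : Subgroup (F ≃ₐ[k] F)) [Fintype G] [Fintype (QG_X G)]
    (H : Subgroup G) :
    ∃ γ : ℕ, 2 * (g : ℤ) - 2 = (Nat.card H : ℤ) * (2 * (γ : ℤ) - 2) +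
    ∑ x : QG_X G, ∑ s ∈ Finset.univ.filter (fun s : G => s ∈ H ∧ s ≠ 1 ∧ s • x = x),
      ((QG_i G x s : ℤ) + 1) := by
  have hfin : Finite (H.map G.subtype) :=
    Finite.of_equiv H (H.equivMapOfInjective G.subtype G.subtype_injective).toEquiv
  obtain ⟨γ, hγ⟩ := hH4 k F hF g hg (H.map G.subtype) hfin
  refine ⟨γ, ?_⟩
  have hcard : Nat.card (H.map G.subtype) = Nat.card H :=
    (Nat.card_congr (H.equivMapOfInjective G.subtype G.subtype_injective).toEquiv).symm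
  rw [hγ, hcard]
  congr 1
  have h1 : ∀ P : Place k F, (∑ᶠ s : (H.map G.subtype),
      if (s : F ≃ₐ[k] F) ≠ 1 ∧ (s : F ≃ₐ[k] F) • P = P then ((P.jump s : ℤ) + 1) else 0) =
      ∑ s ∈ Finset.univ.filter (fun s : G => s ∈ H ∧ s ≠ 1 ∧ (s : F ≃ₐ[k] F) • P = P),
        ((P.jump (s : F ≃ₐ[k] F) : ℤ) + 1) := by
    intro P
    rw [QG_sum G H (fun s : F ≃ₐ[k] F =>
      if s ≠ 1 ∧ s • P = P then ((P.jump s : ℤ) + 1) else 0)]
    rw [← Finset.sum_filter, Finset.filter_filter]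
    refine Finset.sum_congr ?_ fun s _ => rfl
    ext s
    simp only [Finset.mem_filter, Finset.mem_univ, true_and, ne_eq, OneMemClass.coe_eq_one]
  simp only [h1]
  rw [finsum_eq_sum_of_support_subset (s := Finset.univ.map
    (⟨Subtype.val, Subtype.val_injective⟩ : QG_X G ↪ Place k F)), Finset.sum_map]
  · refine Finset.sum_congr rfl fun x _ => ?_
    refine Finset.sum_congr ?_ fun s hs => ?_
    · ext s
      simp only [Finset.mem_filter, Finset.mem_univ, true_and, QG_fix]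
      rfl
    · simp only [Finset.mem_filter, Finset.mem_univ, true_and] at hs
      rw [QG_i_eq G x s ((QG_fix G s x).1 hs.2.2)]
      rfl
  · intro P hP
    rw [Function.mem_support] at hP
    have h2 : ∃ s ∈ Finset.univ.filter
        (fun s : G => s ∈ H ∧ s ≠ 1 ∧ (s : F ≃ₐ[k] F) • P = P),
        ((P.jump (s : F ≃ₐ[k] F) : ℤ) + 1) ≠ 0 := by
      by_contra hcon
      push Not at hcon
      exact hP (Finset.sum_eq_zero hcon)
    obtain ⟨s, hs, -⟩ := h2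
    simp only [Finset.mem_filter, Finset.mem_univ, true_and] at hs
    have h3 : ∃ s ∈ G, s ≠ 1 ∧ s • P = P :=
      ⟨(s : F ≃ₐ[k] F), s.2, fun h => hs.2.1 (by exact_mod_cast h), hs.2.2⟩
    rw [Finset.coe_map, Finset.coe_univ, Set.image_univ]
    exact ⟨(⟨P, h3⟩ : QG_X G), rfl⟩

theorem QG_herb (hF2 : QF2_stmt) (hF3 : QF3_stmt) (hH5 : QH5_stmt) [IsAlgClosed k] [CharP k 3]
    (hF : IsFF k F) (G : Subgroup (F ≃ₐ[k] F)) [Fintype G] (x : QG_X G) (Q : Subgroup G)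
    (hQ : Q ≤ ((QG_θ hF2 hF3 hF G x).ker).map (stabilizer G x).subtype)
    (hn : ∀ c ∈ stabilizer G x, ∀ q ∈ Q, c * q * c⁻¹ ∈ Q)
    (hcard : Nat.card (((QG_θ hF2 hF3 hF G x).ker).map (stabilizer G x).subtype) =
      3 * Nat.card Q) :
    ∃ j : ℕ, 1 ≤ j ∧
      (∑ s ∈ Finset.univ.filter (fun s : G =>
        s ∈ ((QG_θ hF2 hF3 hF G x).ker).map (stabilizer G x).subtype ∧ s ∉ Q), QG_i G x s) =
          2 * Nat.card Q * j ∧
      ∀ c : stabilizer G x, ((QG_θ hF2 hF3 hF G x c) ^ (Nat.card Q * j) = 1 ↔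
        ∀ s ∈ ((QG_θ hF2 hF3 hF G x).ker).map (stabilizer G x).subtype,
          (c : G) * s * (c : G)⁻¹ * s⁻¹ ∈ Q) := by
  set W : Subgroup G := ((QG_θ hF2 hF3 hF G x).ker).map (stabilizer G x).subtype with hW
  have hWm : ∀ s : G, s ∈ W ↔ (s : F ≃ₐ[k] F) • x.1 = x.1 ∧ x.1.theta (s : F ≃ₐ[k] F) = 1 :=
    fun s => QG_mem_P hF2 hF3 hF G x s
  have hcW : Nat.card (W.map G.subtype) = Nat.card W :=
    (Nat.card_congr (W.equivMapOfInjective G.subtype G.subtype_injective).toEquiv).symm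
  have hcQ : Nat.card (Q.map G.subtype) = Nat.card Q :=
    (Nat.card_congr (Q.equivMapOfInjective G.subtype G.subtype_injective).toEquiv).symm
  have hmem : ∀ (V : Subgroup G) (s : G), (s : F ≃ₐ[k] F) ∈ V.map G.subtype ↔ s ∈ V := by
    intro V s
    constructor
    · rintro ⟨t, ht, hts⟩
      have : t = s := Subtype.ext hts
      rwa [← this]
    · intro hs
      exact ⟨s, hs, rfl⟩
  obtain ⟨j, hj1, hj2, hj3⟩ := hH5 k F hF G (W.map G.subtype) (Q.map G.subtype) inferInstance x.1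
    (by
      intro s
      constructor
      · rintro ⟨t, ht, rfl⟩
        exact ⟨t.2, (hWm t).1 ht⟩
      · rintro ⟨hs, h1, h2⟩
        exact ⟨⟨s, hs⟩, (hWm ⟨s, hs⟩).2 ⟨h1, h2⟩, rfl⟩)
    (Subgroup.map_mono hQ)
    (by
      rintro c hc hcx _ ⟨q, hq, rfl⟩
      have h1 := hn ⟨c, hc⟩ ((QG_fix G ⟨c, hc⟩ x).2 hcx) q hq
      exact ⟨_, h1, rfl⟩)
    (by rw [hcW, hcQ, hcard])
  refine ⟨j, hj1, ?_, ?_⟩
  · rw [← hcQ, ← hj2, QG_sum G W (fun s : F ≃ₐ[k] F =>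
      if s ∉ Q.map G.subtype then x.1.jump s else 0)]
    rw [← Finset.sum_filter, Finset.filter_filter]
    refine Finset.sum_congr ?_ fun s hs => ?_
    · ext s
      simp only [Finset.mem_filter, Finset.mem_univ, true_and, hmem]
    · simp only [Finset.mem_filter, Finset.mem_univ, true_and] at hs
      exact QG_i_eq G x s ((hWm s).1 hs.1).1
  · intro c
    rw [QG_θ_pow]
    have h1 := hj3 ((c : G) : F ≃ₐ[k] F) (c : G).2 ((QG_fix G c x).1 c.2)
    rw [hcQ] at h1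
    rw [h1]
    constructor
    · intro h s hs
      have h2 := h (s : F ≃ₐ[k] F) ((hmem W s).2 hs)
      exact (hmem Q ((c : G) * s * (c : G)⁻¹ * s⁻¹)).1 h2
    · rintro h _ ⟨s, hs, rfl⟩
      exact (hmem Q ((c : G) * s * (c : G)⁻¹ * s⁻¹)).2 (h s hs)

theorem QG (hF2 : QF2_stmt) (hF3 : QF3_stmt) (hF6 : QF6_stmt) (hF7 : QF7_stmt)
    (hF10 : QF10_stmt) (hF11 : QF11_stmt) (hH4 : QH4_stmt) (hH5 : QH5_stmt) : QG_stmt := by
  intro k F _ _ _ _ _ g hF hg hg2 G _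
  have : Finite (QG_X G) := QG_finite hF11 hF G
  let _ : Fintype (QG_X G) := Fintype.ofFinite _
  have hne : ∀ s : G, s ≠ 1 ↔ (s : F ≃ₐ[k] F) ≠ 1 := by
    intro s
    rw [not_iff_not]
    exact ⟨fun h => by rw [h]; rfl, fun h => Subtype.ext h⟩
  refine ⟨QG_X G, QG_act G, inferInstance, ⟨?_⟩⟩
  refine
    { i := QG_i G
      θ := QG_θ hF2 hF3 hF G
      conj := ?_
      inv := ?_
      ultra := ?_
      tame := ?_
      wild := ?_
      lead := ?_
      θconj := ?_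
      cong3 := ?_
      prime3 := ?_
      herbrand := ?_
      RH := ?_ }
  · intro a s x
    by_cases h : (s : F ≃ₐ[k] F) • x.1 = x.1
    · rw [QG_i_eq G x s h, QG_i_eq G (a • x) _ ((QG_conj_fix G a s x).2 h)]
      exact ((hF3 k F hF x.1).2.1 (a : F ≃ₐ[k] F) (s : F ≃ₐ[k] F) h).2
    · unfold QG_i
      rw [if_neg h, if_neg (fun h' => h ((QG_conj_fix G a s x).1 h'))]
  · intro x s hs
    have h1 := (QG_fix G s x).1 hs
    have h2 := (QG_fix G s⁻¹ x).1 (by rw [inv_smul_eq_iff, hs])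
    rw [QG_i_eq G x s h1, QG_i_eq G x s⁻¹ h2]
    exact (hF3 k F hF x.1).2.2.1 (s : F ≃ₐ[k] F) h1
  · intro x s t hs ht hs1 ht1 hst
    have h1 := (QG_fix G s x).1 hs
    have h2 := (QG_fix G t x).1 ht
    have h3 := (QG_fix G (s * t) x).1 (by rw [mul_smul, ht, hs])
    rw [QG_i_eq G x s h1, QG_i_eq G x t h2, QG_i_eq G x (s * t) h3]
    exact (hF3 k F hF x.1).2.2.2 _ _ h1 h2 ((hne s).1 hs1) ((hne t).1 ht1) ((hne (s * t)).1 hst)
  · intro x s
    have h1 := (QG_fix G s x).1 s.2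
    have h2 := (hF2 k F hF x.1 ((s : G) : F ≃ₐ[k] F) h1).2.2.2
    have h3 := QG_θ_pow hF2 hF3 hF G x s 1
    rw [pow_one, pow_one] at h3
    rw [h3, h2, QG_i_eq G x s h1]
    constructor
    · rintro (h | h)
      · exact Or.inl (Subtype.ext h)
      · exact Or.inr h
    · rintro (h | h)
      · left; rw [h]; rfl
      · exact Or.inr h
  · intro x s hs hs1 hi
    have h1 := (QG_fix G s x).1 hs
    rw [QG_i_eq G x s h1] at hi
    obtain ⟨n, hn⟩ := (hF7 k F hF x.1 (s : F ≃ₐ[k] F) h1 ((hne s).1 hs1) hi).2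
      ⟨orderOf s, orderOf_pos s, by
        have := pow_orderOf_eq_one s
        exact_mod_cast congrArg (Subtype.val) this⟩
    exact ⟨n, Subtype.ext (by simpa using hn)⟩
  · intro x c s hs hs1 hi
    have h1 := (QG_fix G s x).1 hs
    have hc := (QG_fix G c x).1 c.2
    have hcs : ((c : G) * s * (c : G)⁻¹ * s⁻¹) • x = x := by
      have hc' : (c : G) • x = x := c.2
      have e1 : s⁻¹ • x = x := by rw [inv_smul_eq_iff, hs]
      have e2 : (c : G)⁻¹ • x = x := by rw [inv_smul_eq_iff, hc']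
      rw [mul_smul, mul_smul, mul_smul, e1, e2, hs, hc']
    have h4 := (QG_fix G _ x).1 hcs
    rw [QG_i_eq G x s h1] at hi
    rw [QG_i_eq G x s h1, QG_i_eq G x _ h4, QG_θ_pow]
    have h5 := hF6 k F hF x.1 ((c : G) : F ≃ₐ[k] F) (s : F ≃ₐ[k] F) hc h1 ((hne s).1 hs1) hi
    rw [h5]
    constructor
    · rintro (h | h)
      · left; exact Subtype.ext h
      · right; exact h
    · rintro (h | h)
      · left; exact congrArg Subtype.val h
      · right; exact h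
  · intro a x c h
    apply Units.ext
    rw [QG_θ_val, QG_θ_val]
    exact ((hF3 k F hF x.1).2.1 (a : F ≃ₐ[k] F) ((c : G) : F ≃ₐ[k] F)
      ((QG_fix G c x).1 c.2)).1
  · intro x s t hs ht hs1 ht1 his hit
    have h1 := (QG_fix G s x).1 hs
    have h2 := (QG_fix G t x).1 ht
    rw [QG_i_eq G x s h1] at his
    rw [QG_i_eq G x t h2] at hit
    rw [QG_i_eq G x s h1, QG_i_eq G x t h2]
    exact (hF10 k F hF G inferInstance x.1 _ _ s.2 t.2 h1 h2 ((hne s).1 hs1) ((hne t).1 ht1)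
      his hit).1
  · intro x s hs hs1 his
    have h1 := (QG_fix G s x).1 hs
    rw [QG_i_eq G x s h1] at his
    rw [QG_i_eq G x s h1]
    exact (hF10 k F hF G inferInstance x.1 _ _ s.2 s.2 h1 h1 ((hne s).1 hs1) ((hne s).1 hs1)
      his his).2
  · intro x Q hQ hn hcard
    exact QG_herb hF2 hF3 hH5 hF G x Q hQ hn hcard
  · intro H
    obtain ⟨γ, hγ⟩ := QG_RH hH4 hF g hg G H
    refine ⟨γ, ?_⟩
    convert hγ

end

end Pool.Agent.helper53.AU
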