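import Pool.Agent.helper53.AU.SpecG2

/-! # Project au, module DC -/

namespace Pool.Agent.helper53.AU

open scoped Classical

lemma DC_units (f g : ℤˣ) (h : f = -1) (h' : g = -1) : f * g = 1 := by
  rw [h, h']; decide

lemma DC_pow_card {G : Type} [Group G] {N : Subgroup G} (y : G) (hy : y ∈ N) :
    y ^ Nat.card N = 1 := by
  have h3 : (⟨y, hy⟩ : N) ^ Nat.card N = 1 := pow_card_eq_one'
  have h4 := congrArg (fun z : N => (z : G)) h3
  simpa only [SubmonoidClass.coe_pow, OneMemClass.coe_one] using h4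

theorem DC (hTT : TT_stmt) (hTC : TC_stmt) (hAB : AB_stmt) : DC_stmt := by
  intro H _ _ C t τ m n hcyc hcard hτC hτinv hcent htt htC hinv hH hm
  obtain ⟨-, -, -, -, -, -, -, -, huniq, -⟩ := hAB H C hcyc
  have hcyc' := hcyc
  obtain ⟨c0, hc0⟩ := hcyc
  have hCpos : 0 < Nat.card C := Nat.card_pos
  have hindex : C.index = 2 * m := by
    have h1 := C.card_mul_index
    rw [hH] at h1
    have h2 : Nat.card C * C.index = Nat.card C * (2 * m) := by rw [h1]; ring
    exact Nat.eq_of_mul_eq_mul_left hCpos h2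
  have key : ∀ s : H, s * s = 1 → s ∉ C → ∃ f : H →* ℤˣ, f s = -1 := by
    intro s hs hsC
    refine hTT H C s ⟨m, hindex, hm⟩ hs ?_
    intro g hg
    have hne : g⁻¹ * s * g ≠ 1 := by
      intro h1
      apply hsC
      have h2 : s = 1 := by
        have h3 : s = g * (g⁻¹ * s * g) * g⁻¹ := by group
        rw [h1] at h3
        rw [h3]; group
      rw [h2]; exact C.one_mem
    have h2 : IsInv (g⁻¹ * s * g) := by
      refine ⟨?_, hne⟩
      have h3 : g⁻¹ * s * g * (g⁻¹ * s * g) = g⁻¹ * (s * s) * g := by group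
      rw [h3, hs]; group
    have h3 : g⁻¹ * s * g = τ := huniq _ _ hg hτC h2 hτinv
    apply hsC
    have h5 : s = τ := by
      have h4 : s = g * τ * g⁻¹ := by rw [← h3]; group
      rw [h4, hcent g]; group
    rw [h5]; exact hτC
  obtain ⟨f1, hf1⟩ := key t htt htC
  have ht' : t⁻¹ = t := inv_eq_of_mul_eq_one_right htt
  have hct : ((c0 : H) * t) * ((c0 : H) * t) = 1 := by
    have h1 := hinv c0 c0.2
    rw [ht'] at h1
    have h2 : ((c0 : H) * t) * ((c0 : H) * t) = (c0 : H) * (t * c0 * t) := by group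
    rw [h2, h1]; group
  have hctC : (c0 : H) * t ∉ C := fun h => htC (by
    have h1 := C.mul_mem (C.inv_mem c0.2) h
    rwa [inv_mul_cancel_left] at h1)
  obtain ⟨f2, hf2⟩ := key ((c0 : H) * t) hct hctC
  obtain ⟨χ, hχc, hχt⟩ : ∃ χ : H →* ℤˣ, χ c0 = 1 ∧ χ t = -1 := by
    rcases Int.units_eq_one_or (f1 c0) with h | h
    · exact ⟨f1, h, hf1⟩
    · rcases Int.units_eq_one_or (f2 c0) with h' | h'
      · refine ⟨f2, h', ?_⟩
        rw [map_mul, h', one_mul] at hf2
        exact hf2
      · refine ⟨f1 * f2, ?_, ?_⟩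
        · rw [MonoidHom.mul_apply]; exact DC_units _ _ h h'
        · rw [map_mul, h'] at hf2
          rcases Int.units_eq_one_or (f2 t) with h3 | h3
          · rw [MonoidHom.mul_apply, hf1, h3]; rfl
          · rw [h3] at hf2
            exact absurd hf2 (by decide)
  have hCK : C ≤ χ.ker := by
    intro x hx
    obtain ⟨j, hj⟩ := hc0 ⟨x, hx⟩
    have h1 : x = (c0 : H) ^ j := by
      have := congrArg Subtype.val hj
      simpa using this.symm
    rw [MonoidHom.mem_ker, h1, map_zpow, hχc, one_zpow]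
  have hKindex : χ.ker.index = 2 := by
    rw [Subgroup.index_ker]
    have h1 : χ.range = ⊤ := by
      rw [eq_top_iff]
      intro u _
      rcases Int.units_eq_one_or u with h | h
      · exact ⟨1, by rw [h, map_one]⟩
      · exact ⟨t, by rw [h, hχt]⟩
    rw [h1, Subgroup.card_top, Nat.card_eq_fintype_card, Fintype.card_units_int]
  have hKcard : Nat.card χ.ker = 2 ^ n * m := by
    have h1 := χ.ker.card_mul_index
    rw [hKindex, hH, hcard] at h1
    have h2 : Nat.card χ.ker * 2 = (2 ^ n * m) * 2 := by rw [h1]; ring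
    exact Nat.eq_of_mul_eq_mul_right (by norm_num) h2
  have e1 := Subgroup.subgroupOfEquivOfLe hCK
  have hScard : Nat.card (C.subgroupOf χ.ker) = 2 ^ n := by
    rw [Nat.card_congr e1.toEquiv, hcard]
  have : Fact (Nat.Prime 2) := ⟨Nat.prime_two⟩
  have hm0 : m ≠ 0 := by
    rintro rfl
    exact absurd hm (by decide)
  have hfac : (Nat.card χ.ker).factorization 2 = n := by
    rw [hKcard, Nat.factorization_mul (by positivity) hm0]
    have h2 : ¬ 2 ∣ m := by
      intro h
      rw [← Nat.not_even_iff_odd] at hm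
      exact hm (even_iff_two_dvd.2 h)
    rw [Finsupp.add_apply, Nat.Prime.factorization_pow Nat.prime_two,
      Nat.factorization_eq_zero_of_not_dvd h2]
    simp
  let S : Sylow 2 χ.ker := Sylow.ofCard (C.subgroupOf χ.ker) (by rw [hfac]; exact hScard)
  have hScyc : IsCyclic (S : Subgroup χ.ker) := by
    have : IsCyclic (C.subgroupOf χ.ker) := e1.isCyclic.2 hcyc'
    exact this
  obtain ⟨N, hN, hNodd, hNidx⟩ := hTC χ.ker S hScyc
  have hNidx' : N.index = 2 ^ n := by
    rw [hNidx]; exact hScard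
  have hcardU : Nat.card (N.map χ.ker.subtype) = Nat.card N :=
    (Nat.card_congr (N.equivMapOfInjective _ χ.ker.subtype_injective).toEquiv).symm
  refine ⟨N.map χ.ker.subtype, ?_, ?_, ?_⟩
  · constructor
    rintro x ⟨y, hy, rfl⟩ g
    have hyK : g * (y : H) * g⁻¹ ∈ χ.ker := (inferInstance : χ.ker.Normal).conj_mem _ y.2 g
    refine ⟨⟨g * (y : H) * g⁻¹, hyK⟩, ?_, rfl⟩
    have h1 : (⟨g * (y : H) * g⁻¹, hyK⟩ : χ.ker) ^ Nat.card N = 1 := by
      have h2 : (y : χ.ker) ^ Nat.card N = 1 := by
        exact DC_pow_card y hy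
      apply Subtype.ext
      have h4 : ((y : χ.ker) : H) ^ Nat.card N = 1 := by
        have := congrArg Subtype.val h2
        simpa using this
      simp only [SubmonoidClass.mk_pow, conj_pow, h4]
      simp
    have h5 : (⟨g * (y : H) * g⁻¹, hyK⟩ : χ.ker) ^ N.index ∈ N := Subgroup.pow_index_mem N _
    set z : χ.ker := ⟨g * (y : H) * g⁻¹, hyK⟩ with hz
    have hco : Nat.Coprime (Nat.card N) N.index := by
      rw [hNidx']
      exact (Nat.coprime_two_right.2 hNodd).pow_right n
    have h6 : orderOf (z : χ.ker ⧸ N) ∣ Nat.card N := by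
      apply orderOf_dvd_of_pow_eq_one
      rw [← QuotientGroup.mk_pow, h1, QuotientGroup.mk_one]
    have h7 : orderOf (z : χ.ker ⧸ N) ∣ N.index := by
      apply orderOf_dvd_of_pow_eq_one
      rw [← QuotientGroup.mk_pow, QuotientGroup.eq_one_iff]
      exact h5
    have h8 : orderOf (z : χ.ker ⧸ N) = 1 := Nat.eq_one_of_dvd_coprimes hco h6 h7
    rw [orderOf_eq_one_iff, QuotientGroup.eq_one_iff] at h8
    exact h8
  · rw [hcardU]; exact hNodd
  · have h1 := (N.map χ.ker.subtype).card_mul_index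
    have h2 := N.card_mul_index
    have h3 := χ.ker.card_mul_index
    rw [hcardU, ← h3, ← h2, hKindex, hNidx'] at h1
    rw [hcard]
    have hpos : 0 < Nat.card N := Nat.card_pos
    have h4 : Nat.card N * (N.map χ.ker.subtype).index = Nat.card N * (2 * 2 ^ n) := by
      rw [h1]; ring
    exact Nat.eq_of_mul_eq_mul_left hpos h4

end Pool.Agent.helper53.AU
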