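import Mathlib

/-!
# Project au (MP_97532f_ag): definitions

Part 1: the statement (function fields, places, Riemann-Roch spaces, genus, `mu`, admissible polynomials).
Part 2: the abstract ramification data `Ram` of a finite group acting on a curve of characteristic 3
(the interface between the geometric part and the group theoretic part).
Part 3: the special genera. Part 4: group theoretic notions.
-/

namespace Pool.Agent.helper53.AU

open scoped Classical

noncomputable section

/-! ## Part 1: the statement -/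

/-- `F` is an algebraic function field of one variable over `k`: a finite extension of `k(x)` for
some `x` transcendental over `k`. For `k` algebraically closed these are the function fields of the
complete irreducible nonsingular curves over `k`, and the automorphisms of the curve are the
`k`-algebra automorphisms of `F`. -/
def IsFF (k F : Type) [Field k] [Field F] [Algebra k F] : Prop :=
  ∃ x : F, Transcendental k x ∧ FiniteDimensional (IntermediateField.adjoin k ({x} : Set F)) F

/-- A place (point of the complete nonsingular model): a normalised discrete valuation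
`ord : F → ℤ` of `F`, trivial on `k`. The value at `0` is the junk value `0`. -/
@[ext] structure Place (k F : Type) [Field k] [Field F] [Algebra k F] where
  ord : F → ℤ
  ord_zero : ord 0 = 0
  ord_mul : ∀ a b : F, a ≠ 0 → b ≠ 0 → ord (a * b) = ord a + ord b
  ord_add : ∀ a b : F, a ≠ 0 → b ≠ 0 → a + b ≠ 0 → min (ord a) (ord b) ≤ ord (a + b)
  ord_const : ∀ c : k, c ≠ 0 → ord (algebraMap k F c) = 0
  exists_uniformizer : ∃ t : F, t ≠ 0 ∧ ord t = 1

/-- The Riemann-Roch space `L(D)` of a divisor `D` (a finitely supported function on places). -/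
def RR {k F : Type} [Field k] [Field F] [Algebra k F] (D : Place k F →₀ ℤ) : Submodule k F where
  carrier := {f | f = 0 ∨ ∀ P : Place k F, -D P ≤ P.ord f}
  zero_mem' := Or.inl rfl
  add_mem' := by
    intro a b ha hb
    by_cases ha0 : a = 0
    · subst ha0; simpa using hb
    by_cases hb0 : b = 0
    · subst hb0; simpa using ha
    by_cases hab : a + b = 0
    · exact Or.inl hab
    right
    intro P
    have h1 := (ha.resolve_left ha0) P
    have h2 := (hb.resolve_left hb0) P
    exact le_trans (le_min h1 h2) (P.ord_add a b ha0 hb0 hab)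
  smul_mem' := by
    intro c f hf
    by_cases hc : c = 0
    · subst hc; left; simp
    by_cases hf0 : f = 0
    · subst hf0; left; simp
    right
    intro P
    have h1 := (hf.resolve_left hf0) P
    have hc' : algebraMap k F c ≠ 0 := by
      simpa using hc
    rw [Algebra.smul_def, P.ord_mul _ _ hc' hf0, P.ord_const c hc]
    simpa using h1

/-- the degree of a divisor (all residue fields are `k` for `k` algebraically closed) -/
def degD {k F : Type} [Field k] [Field F] [Algebra k F] (D : Place k F →₀ ℤ) : ℤ :=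
  D.sum fun _ n => n

/-- `g` is the genus of `F/k`: the maximum of `deg D + 1 - dim L(D)` over all divisors `D`. -/
def IsGenus (k F : Type) [Field k] [Field F] [Algebra k F] (g : ℕ) : Prop :=
  IsGreatest (Set.range fun D : Place k F →₀ ℤ => degD D + 1 - (Module.finrank k (RR D) : ℤ)) (g : ℤ)

/-- `mu p g`: the maximum (supremum in `ℕ∞`) of the number of automorphisms of a curve of genus `g`
over the algebraically closed field `AlgebraicClosure (ZMod p)` of characteristic `p`. -/
def mu (p : ℕ) [Fact p.Prime] (g : ℕ) : ℕ∞ :=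
  ⨆ (F : Type) (_ : Field F) (_ : Algebra (AlgebraicClosure (ZMod p)) F)
    (_ : IsFF (AlgebraicClosure (ZMod p)) F ∧ IsGenus (AlgebraicClosure (ZMod p)) F g),
    ENat.card (F ≃ₐ[AlgebraicClosure (ZMod p)] F)

/-- `M` is admissible for `p`. -/
def Admissible (p : ℕ) [Fact p.Prime] (M : Polynomial ℚ) : Prop :=
  (∀ g : ℕ, 2 ≤ g → ∀ m : ℕ, mu p g ≤ (m : ℕ∞) → M.eval (g : ℚ) ≤ (m : ℚ)) ∧
  {g : ℕ | 2 ≤ g ∧ ∃ m : ℕ, mu p g = (m : ℕ∞) ∧ M.eval (g : ℚ) = (m : ℚ)}.Infinite

/-! ## Part 2: ramification data -/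

/-- Ramification data of a finite group `G` acting on a curve of genus `g` in characteristic 3. `X` is
a finite `G`-set of points containing all points with nontrivial stabiliser. For `s ≠ 1` fixing `x`,
`i x s + 1 = v_x (s t - t)`, `t` a uniformiser at `x` (for other `s` the value is irrelevant).
`θ x` is the character of the stabiliser on the cotangent line. -/
structure Ram (k G X : Type) [Field k] [Group G] [Fintype G] [MulAction G X] [Fintype X]
    (g : ℕ) where
  i : X → G → ℕ
  θ : ∀ x : X, MulAction.stabilizer G x →* kˣ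
  conj : ∀ (a s : G) (x : X), i (a • x) (a * s * a⁻¹) = i x s
  inv : ∀ (x : X) (s : G), s • x = x → i x s⁻¹ = i x s
  ultra : ∀ (x : X) (s t : G), s • x = x → t • x = x → s ≠ 1 → t ≠ 1 → s * t ≠ 1 →
    min (i x s) (i x t) ≤ i x (s * t)
  /-- the kernel of `θ x` consists of the wild elements -/
  tame : ∀ (x : X) (s : MulAction.stabilizer G x), θ x s = 1 ↔ (s : G) = 1 ∨ 1 ≤ i x (s : G)
  wild : ∀ (x : X) (s : G), s • x = x → s ≠ 1 → 1 ≤ i x s → ∃ n : ℕ, s ^ (3 ^ n) = 1
  /-- leading coefficients: `a(c s c⁻¹) = θ(c)^i a(s)` up to sign of the exponent -/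
  lead : ∀ (x : X) (c : MulAction.stabilizer G x) (s : G), s • x = x → s ≠ 1 → 1 ≤ i x s →
    ((θ x c) ^ (i x s) = 1 ↔
      ((c : G) * s * (c : G)⁻¹ * s⁻¹ = 1 ∨ i x s < i x ((c : G) * s * (c : G)⁻¹ * s⁻¹)))
  θconj : ∀ (a : G) (x : X) (c : MulAction.stabilizer G x)
    (h : a * (c : G) * a⁻¹ ∈ MulAction.stabilizer G (a • x)),
    θ (a • x) ⟨a * (c : G) * a⁻¹, h⟩ = θ x c
  cong3 : ∀ (x : X) (s t : G), s • x = x → t • x = x → s ≠ 1 → t ≠ 1 → 1 ≤ i x s → 1 ≤ i x t →
    i x s % 3 = i x t % 3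
  prime3 : ∀ (x : X) (s : G), s • x = x → s ≠ 1 → 1 ≤ i x s → i x s % 3 ≠ 0
  /-- Herbrand for a subgroup `Q` of index 3 of the wild group `P_x`, normal in the stabiliser: the sum
  of `i` over `P_x \ Q` is `2 |Q| j`, `j` the jump of the quotient; and an element `c` of the stabiliser
  centralises `P_x / Q` iff `θ(c)^{|Q| j} = 1`. -/
  herbrand : ∀ (x : X) (Q : Subgroup G),
    Q ≤ ((θ x).ker).map (MulAction.stabilizer G x).subtype →
    (∀ c ∈ MulAction.stabilizer G x, ∀ q ∈ Q, c * q * c⁻¹ ∈ Q) →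
    Nat.card (((θ x).ker).map (MulAction.stabilizer G x).subtype) = 3 * Nat.card Q →
    ∃ j : ℕ, 1 ≤ j ∧
      (∑ s ∈ Finset.univ.filter (fun s : G =>
        s ∈ ((θ x).ker).map (MulAction.stabilizer G x).subtype ∧ s ∉ Q), i x s) =
          2 * Nat.card Q * j ∧
      ∀ c : MulAction.stabilizer G x, ((θ x c) ^ (Nat.card Q * j) = 1 ↔
        ∀ s ∈ ((θ x).ker).map (MulAction.stabilizer G x).subtype,
          (c : G) * s * (c : G)⁻¹ * s⁻¹ ∈ Q)
  /-- Riemann-Hurwitz for every subgroup -/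
  RH : ∀ H : Subgroup G, ∃ γ : ℕ, 2 * (g : ℤ) - 2 = (Nat.card H : ℤ) * (2 * (γ : ℤ) - 2) +
    ∑ x : X, ∑ s ∈ Finset.univ.filter (fun s : G => s ∈ H ∧ s ≠ 1 ∧ s • x = x), ((i x s : ℤ) + 1)

namespace Ram

variable {k G X : Type} [Field k] [Group G] [Fintype G] [MulAction G X] [Fintype X] {g : ℕ}

/-- the wild group `P_x` (a subgroup of `G`) -/
def P (R : Ram k G X g) (x : X) : Subgroup G :=
  ((R.θ x).ker).map (MulAction.stabilizer G x).subtype

/-- `T_x = ∑ i x s` over `s ∈ P_x \ 1` -/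
def T (R : Ram k G X g) (x : X) : ℕ :=
  ∑ s ∈ Finset.univ.filter (fun s : G => s ∈ R.P x ∧ s ≠ 1), R.i x s

/-- the different exponent of the subgroup `H` at `x` -/
def d (R : Ram k G X g) (H : Subgroup G) (x : X) : ℕ :=
  ∑ s ∈ Finset.univ.filter (fun s : G => s ∈ H ∧ s ≠ 1 ∧ s • x = x), (R.i x s + 1)

end Ram

/-! ## Part 3: the special genera `g = l + 1` -/

structure Special (l : ℕ) : Prop where
  prime : l.Prime
  large : 1000 < l
  mod8 : l % 8 = 3
  mod3 : l % 3 = 1
  mod5 : l % 5 = 2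
  /-- condition (R) -/
  condR : ∀ r i : ℕ, r.Prime → 5 ≤ r → 1 ≤ i → 3 ^ i ≤ l + 2 → r ∣ 3 ^ i - 1 →
    ¬ r ∣ l + 1 ∧ ¬ r ∣ l + 2
  /-- condition (N) -/
  condN : ∀ a d' m e' h' u n : ℕ, 2 ≤ a → 3 ^ a ≤ l + 2 → (d' = 1 ∨ d' = 2) → 1 ≤ m → m ≤ 3 →
    0 < e' → 0 < h' → 0 < u → d' * e' + 2 = d' * m * h' → u * e' ∣ 3 ^ a + m →
    (2 ≤ m → h' ≤ 3) → n ∣ d' * 3 ^ a * u * e' * h' → n % l = 1 → n = 1

/-! ## Part 4: group theory -/

/-- 2-transitivity -/
def TwoTrans (L Ω : Type) [Group L] [MulAction L Ω] : Prop :=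
  ∀ a b c d : Ω, a ≠ b → c ≠ d → ∃ g : L, g • a = c ∧ g • b = d

/-- primitivity: every invariant equivalence relation is trivial (transitivity is assumed
separately where needed) -/
def Prim (L Ω : Type) [Group L] [MulAction L Ω] : Prop :=
  ∀ r : Setoid Ω, (∀ (g : L) (a b : Ω), r a b → r (g • a) (g • b)) → r = ⊥ ∨ r = ⊤

/-- `H` is an extension of a normal 3-group by a cyclic group of order prime to 3 -/
def ThreeCyc {L : Type} [Group L] (H : Subgroup L) : Prop :=
  ∃ (P : Subgroup L) (c : L), P ≤ H ∧ c ∈ H ∧ IsPGroup 3 P ∧ (∀ x ∈ H, ∀ p ∈ P, x * p * x⁻¹ ∈ P) ∧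
    ¬ 3 ∣ orderOf c ∧ ∀ x ∈ H, ∃ p ∈ P, ∃ n : ℕ, x = p * c ^ n

/-- `L` is generated by its elements of 3-power order -/
def GenThree (L : Type) [Group L] : Prop :=
  Subgroup.closure {x : L | ∃ n : ℕ, x ^ (3 ^ n) = 1} = ⊤

/-- the class `LL` of the proof (section 9), with the cyclic group `A` as parameter -/
structure LL (L Ω : Type) [Group L] [MulAction L Ω] (A : Subgroup L) : Prop where
  finL : Finite L
  finΩ : Finite Ω
  faithful : FaithfulSMul L Ω
  trans : MulAction.IsPretransitive L Ω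
  simple : IsSimpleGroup L
  nonab : ∃ a b : L, a * b ≠ b * a
  four : 4 ∣ Nat.card Ω
  three : ¬ 3 ∣ Nat.card Ω
  copr : ∀ α : Ω, Nat.Coprime (Nat.card (MulAction.stabilizer L α)) (Nat.card Ω)
  stab : ∀ α : Ω, ThreeCyc (MulAction.stabilizer L α)
  cyc : IsCyclic A
  cardA : 2 * Nat.card A = Nat.card Ω
  semireg : ∀ a ∈ A, ∀ ω : Ω, a • ω = ω → a = 1
  dih : ∃ t : L, t * t = 1 ∧ t ∉ A ∧ ∀ a ∈ A, (∃ n : ℕ, a ^ (2 ^ n) = 1) → t * a * t⁻¹ = a⁻¹

end

end Pool.Agent.helper53.AU
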