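import Pool.Agent.helper53.AU.SpecTop
import Pool.Agent.helper79.AU.FIN

/-!
# Project au: FIN_stmt from the theorem of helper79
-/

namespace Pool.Agent.helper53.AU

theorem FIN : FIN_stmt := fun F _ _ _ m hF _ h => Pool.Agent.helper79.AU.FIN 3 F hF m h

end Pool.Agent.helper53.AU
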