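import Pool.Agent.helper53.AU.SpecG2

/-!
# Project au: specification G3 (section 11 of the notes: Theorem G)
-/

namespace Pool.Agent.helper53.AU

open scoped Classical

/-- conclusion of Theorem G -/
structure GCon (L Ω : Type) [Group L] [MulAction L Ω] (A : Subgroup L) : Prop where
  card : ∃ c : ℕ, Odd c ∧ 3 ≤ c ∧ Nat.card Ω = 3 ^ c + 1 ∧
    ∀ α : Ω, Nat.card (MulAction.stabilizer L α) = 3 ^ c * ((3 ^ c - 1) / 2)
  two : TwoTrans L Ω
  cent : ∀ τ : L, IsInv τ → Nat.card {g : L // g * τ = τ * g} = Nat.card Ω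
  inverts : ∀ t : L, DihW A t → ∀ a ∈ A, t * a * t⁻¹ = a⁻¹

/-- Theorem G for groups of order `< n` -/
def TGlt (n : ℕ) : Prop := ∀ (L Ω : Type) [Group L] [MulAction L Ω] (A : Subgroup L),
  LL L Ω A → Nat.card L < n → GCon L Ω A

/-- THEOREM G -/
def TG_stmt : Prop := ∀ (L Ω : Type) [Group L] [MulAction L Ω] (A : Subgroup L),
  LL L Ω A → GCon L Ω A

/-! ## (11.a): `t` inverts `A` -/

/-- G1. (11.a), first half: `D = A ∪ A t` regular dihedral, so `L` is 2-transitive. Let `Γ` be the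
`L_α`-orbit of `t α` : it contains `s α` for every involution `s` (P4), so the whole second
`A`-orbit and `τ α`. An invariant equivalence relation `r`: if the class of `α` meets `Γ` it contains it, has
more than `|Ω|/2` elements; else it is `B α`, `B ≤ A`, `B` is normal in `D`, all classes are `B`-orbits, `B` is in the
kernel of the simple group `L` on the classes. An `L_α`-orbit different from `{α}`, `Γ` is `T α`, `T ⊆ A`, the
connected component of `α` in its orbital graph lies in `A α`: a block. So `Ω = {α} ∪ Γ`. -/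
def G1_stmt : Prop := ∀ (L Ω : Type) [Group L] [MulAction L Ω] (A : Subgroup L) (t : L),
  LL L Ω A → DihW A t → (∀ a ∈ A, t * a * t⁻¹ = a⁻¹) → TwoTrans L Ω

/-- G2. (11.a), normaliser of a subgroup of prime order `<ρ>` of `oddPart A`: it is `C(τ)`. -/
def G2_stmt : Prop := ∀ (L Ω : Type) [Group L] [MulAction L Ω] (A : Subgroup L) (t τ ρ : L),
  LL L Ω A → DihW A t → (∀ a ∈ A, t * a * t⁻¹ = a⁻¹) → Nat.card (twoPart A) = 2 →
  τ ∈ A → IsInv τ → ρ ∈ oddPart A → (orderOf ρ).Prime →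
  ∀ g : L, g * ρ * g⁻¹ ∈ Subgroup.zpowers ρ ↔ g * τ = τ * g

/-- G3. (11.a), counting: the number of involutions is `1` modulo `|oddPart A|`. Proof: `oddPart A` acts by
conjugation on the involutions, by G2 without fixed points apart from `τ`, semiregularly. -/
def G3_stmt : Prop := ∀ (L Ω : Type) [Group L] [MulAction L Ω] (A : Subgroup L) (t : L),
  LL L Ω A → DihW A t → (∀ a ∈ A, t * a * t⁻¹ = a⁻¹) → Nat.card (twoPart A) = 2 →
  Nat.card {s : L // IsInv s} ≡ 1 [MOD Nat.card (oddPart A)]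

/-- G4. arithmetic of (11.a). -/
def G4_stmt : Prop := ∀ c b E : ℕ, 3 ≤ c → Odd c → 4 * E = 3 ^ c + 1 → b ∣ (3 ^ c - 1) / 2 →
  3 ^ c * b ≡ 1 [MOD E] → b = (3 ^ c - 1) / 2

/-- G5. (11.a), conclusion: Theorem G when some witness `t` inverts `A`. (For another witness `t'`:
`t' ∈ C(τ) = A ∪ A t`.) -/
def G5_stmt : Prop := ∀ (L Ω : Type) [Group L] [MulAction L Ω] (A : Subgroup L) (t : L),
  LL L Ω A → DihW A t → (∀ a ∈ A, t * a * t⁻¹ = a⁻¹) → GCon L Ω A

/-! ## (11.b): the centraliser of an element of prime order of `A_+` -/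

/-- M1. `M = C(ρ)`, `ρ ∈ oddPart A` of prime order commuting with `t`; `O` = the elements of `M` in
`oc M`; `A' = O ∩ oddPart A` is normalised by `M` and contains its centraliser in `O`, and is a normal Hall
subgroup of `O`. Proof: `M` contains `A`, `t`, is transitive; the orbits of `O` are those of `A'` (orders); LO. -/
def M1_stmt : Prop := ∀ (L Ω : Type) [Group L] [MulAction L Ω] (A : Subgroup L) (t ρ : L),
  LL L Ω A → DihW A t → ρ ∈ oddPart A → (orderOf ρ).Prime → t * ρ = ρ * t →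
  ∀ O : Subgroup L, O = (oc (Subgroup.centralizer ({ρ} : Set L))).map
      (Subgroup.centralizer ({ρ} : Set L)).subtype →
    (∀ g : L, g * ρ = ρ * g → ∀ a ∈ O ⊓ oddPart A, g * a * g⁻¹ ∈ O ⊓ oddPart A) ∧
    (∀ x ∈ O, (∀ a ∈ O ⊓ oddPart A, x * a = a * x) → x ∈ oddPart A) ∧
    (∀ g : L, g * ρ = ρ * g → ∀ x ∈ O, g * x * g⁻¹ ∈ O) ∧ Odd (Nat.card O) ∧ ρ ∈ O ∧
    (∀ N : Subgroup L, (∀ x ∈ N, x * ρ = ρ * x) →
      (∀ g : L, g * ρ = ρ * g → ∀ x ∈ N, g * x * g⁻¹ ∈ N) → Odd (Nat.card N) → N ≤ O)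

/-- M2 (the dichotomy of (11.b)): either `oddPart A` is normalised by `M = C(ρ)`, or there is a nonabelian
simple subgroup `E` of even order, normal in `M`.
Proof: if `M` has a normal 2-complement it contains `oddPart A`, so `A' = oddPart A`. Otherwise the 2-elements of `M`
centralise `A'` (else `C_M(A')` has the cyclic Sylow 2-subgroup `twoPart A`, so a normal 2-complement, and
`M/C_M(A')` is abelian (CM), and `M` has a normal 2-complement). Let `J` be the subgroup generated by the involutions of `M`: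
`J ≤ C_M(A')`, by transfer (to the Sylow subgroups of `C_M(A')` contained in `oddPart A`) `J ∩ A' = 1`, so `J ∩ O = 1`. `E` minimal normal
in `M`, `E ≤ J`: `|E|` even, MN. Order 2: DC gives a normal 2-complement. Klein four: `C_M(E)` contains `oddPart A` (no automorphism
of order prime to 6) and has the central Sylow 2-subgroup `E`, so `C_M(E) = E × W`, `oddPart A ≤ W ≤ O`. -/
def M2_stmt : Prop := ∀ (L Ω : Type) [Group L] [MulAction L Ω] (A : Subgroup L) (t ρ : L),
  LL L Ω A → DihW A t → ρ ∈ oddPart A → (orderOf ρ).Prime → t * ρ = ρ * t →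
  (∀ g : L, g * ρ = ρ * g → ∀ a ∈ oddPart A, g * a * g⁻¹ ∈ oddPart A) ∨
  ∃ E : Subgroup L, (∀ x ∈ E, x * ρ = ρ * x) ∧
    (∀ g : L, g * ρ = ρ * g → ∀ x ∈ E, g * x * g⁻¹ ∈ E) ∧ NASimple E ∧ Even (Nat.card E)

/-- M3. such an `E` is in LL on each of its orbits, with the cyclic group `A ∩ E`, and it is smaller than `L`. -/
def M3_stmt : Prop := ∀ (L Ω : Type) [Group L] [MulAction L Ω] (A : Subgroup L) (t ρ : L),
  LL L Ω A → DihW A t → ρ ∈ oddPart A → (orderOf ρ).Prime → t * ρ = ρ * t →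
  ∀ E : Subgroup L, (∀ x ∈ E, x * ρ = ρ * x) →
    (∀ g : L, g * ρ = ρ * g → ∀ x ∈ E, g * x * g⁻¹ ∈ E) → NASimple E → Even (Nat.card E) →
    ∀ α : Ω, LL E (MulAction.orbit E α) (A.subgroupOf E) ∧ Nat.card E < Nat.card L

/-! ## case (b): `t` centralises `oddPart A` -/

/-- B1. In case (b) `oddPart A` is normalised by `C(ρ)` for every `ρ ∈ oddPart A` of prime order
(M2; a simple `E` is excluded by the induction hypothesis: some involution `t_E ∈ E` commuting with `τ`
inverts `A ∩ E`, which has elements of odd order; but every involution of `C(τ)` is conjugate in `C(τ)` to an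
element of `(twoPart A)<t>`, so centralises `oddPart A`). -/
def B1_stmt : Prop := ∀ (L Ω : Type) [Group L] [MulAction L Ω] (A : Subgroup L) (t : L),
  LL L Ω A → DihW A t → (∀ a ∈ oddPart A, t * a = a * t) → TGlt (Nat.card L) →
  ∀ ρ ∈ oddPart A, (orderOf ρ).Prime →
    ∀ g : L, g * ρ = ρ * g → ∀ a ∈ oddPart A, g * a * g⁻¹ ∈ oddPart A

/-- B2. In case (b), `oddPart A ≠ 1`: `N = N(oddPart A)`; `|L : N| = 1` modulo `|oddPart A|`. Proof: TI by B1 (NH), and
`oddPart A` acts on `L ⧸ N` semiregularly apart from one point. -/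
def B2_stmt : Prop := ∀ (L Ω : Type) [Group L] [MulAction L Ω] (A : Subgroup L) (t : L),
  LL L Ω A → DihW A t → (∀ a ∈ oddPart A, t * a = a * t) →
  (∀ ρ ∈ oddPart A, (orderOf ρ).Prime →
    ∀ g : L, g * ρ = ρ * g → ∀ a ∈ oddPart A, g * a * g⁻¹ ∈ oddPart A) →
  (Subgroup.normalizer (oddPart A : Set L)).index ≡ 1 [MOD Nat.card (oddPart A)]

/-- B3. In case (b), `oddPart A ≠ 1`: `|twoPart A| = 2`, exactly 3 involutions centralise `oddPart A`, and any two involutions
centralising `oddPart A` are conjugate under `N(oddPart A)`, and `C(τ) ≤ N(oddPart A)`.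
Proof: for an involution `s ∈ C(oddPart A)`, `oddPart A` is the normal Hall subgroup of order `|oddPart A|` of `C(s)` (conjugate of P5), so
conjugacy in `L` of such involutions is conjugacy in `N`. `C(oddPart A) = oddPart A × M₀` (central Hall subgroup),
`C(τ) ∩ M₀` is the 2-group `(twoPart A)<t>`; `oc M₀ = 1` (inverted by the commuting involutions `τ, t, τt`). `E` minimal among the nontrivial
normal subgroups of `N` contained in `M₀`: even order, contains all involutions of `M₀`, so `(twoPart A)<t>`. MN-type argument: elementary abelian: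
`E = (twoPart A)<t>` of order 4, done; or nonabelian simple: `E` in LL on `E α`, which has `2 |twoPart A|` points; by `TGlt` it has `3^c + 1 ≥ 28`
points, `= 4` modulo 8: contradiction. -/
def B3_stmt : Prop := ∀ (L Ω : Type) [Group L] [MulAction L Ω] (A : Subgroup L) (t : L),
  LL L Ω A → DihW A t → (∀ a ∈ oddPart A, t * a = a * t) → oddPart A ≠ ⊥ → TGlt (Nat.card L) →
  Nat.card (twoPart A) = 2 ∧
  Nat.card {s : L // IsInv s ∧ ∀ a ∈ oddPart A, s * a = a * s} = 3 ∧
  (∀ s s' : L, IsInv s → IsInv s' → (∀ a ∈ oddPart A, s * a = a * s) →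
    (∀ a ∈ oddPart A, s' * a = a * s') →
    ∃ g ∈ Subgroup.normalizer (oddPart A : Set L), g * s * g⁻¹ = s')

/-- B4. In case (b), `oddPart A ≠ 1`, `|twoPart A| = 2`: `D = A <t>` is abelian; PA, SR: `L` is 2-transitive. -/
def B4_stmt : Prop := ∀ (L Ω : Type) [Group L] [MulAction L Ω] (A : Subgroup L) (t : L),
  LL L Ω A → DihW A t → (∀ a ∈ oddPart A, t * a = a * t) → oddPart A ≠ ⊥ →
  Nat.card (twoPart A) = 2 → TwoTrans L Ω

/-- B5. arithmetic of case (b). -/
def B5_stmt : Prop := ∀ c b E : ℕ, 3 ≤ c → Odd c → 4 * E = 3 ^ c + 1 → b ∣ (3 ^ c - 1) / 2 →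
  3 ^ (c - 1) * b ≡ 1 [MOD E] → False

/-- B6. case (b) is impossible (B1-B5, XX, P5). `|N : C(τ)| = 3`, `|L : C(τ)| = 3^c b`. -/
def B6_stmt : Prop := ∀ (L Ω : Type) [Group L] [MulAction L Ω] (A : Subgroup L) (t : L),
  LL L Ω A → DihW A t → (∀ a ∈ oddPart A, t * a = a * t) → TGlt (Nat.card L) → oddPart A = ⊥

/-! ## case (c): `t` neither centralises nor inverts `oddPart A` -/

/-- C1. In case (c) there is the simple group `E` of M2: if `oddPart A` were normalised by `C(ρ)`, it would be its normal Hall subgroup;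
`t` is conjugate to `τ`, so `C(t)` has a cyclic normal Hall subgroup `A''` with `|A''| = |oddPart A|`, `ρ ∈ A''`, so `A'' ≤ C(ρ)`, `A'' = oddPart A` is
centralised by `t`. -/
def C1_stmt : Prop := ∀ (L Ω : Type) [Group L] [MulAction L Ω] (A : Subgroup L) (t ρ : L),
  LL L Ω A → DihW A t → ρ ∈ oddPart A → (orderOf ρ).Prime → t * ρ = ρ * t →
  (∃ a ∈ oddPart A, t * a ≠ a * t) →
  ∃ E : Subgroup L, (∀ x ∈ E, x * ρ = ρ * x) ∧
    (∀ g : L, g * ρ = ρ * g → ∀ x ∈ E, g * x * g⁻¹ ∈ E) ∧ NASimple E ∧ Even (Nat.card E)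

/-- data of case (c) -/
structure CaseC (L Ω : Type) [Group L] [MulAction L Ω] (A E : Subgroup L) (t ρ : L) : Prop where
  LL : LL L Ω A
  dih : DihW A t
  mem : ρ ∈ oddPart A
  pr : (orderOf ρ).Prime
  comm : t * ρ = ρ * t
  ne : ∃ a ∈ oddPart A, t * a ≠ a * t
  Ecent : ∀ x ∈ E, x * ρ = ρ * x
  Enorm : ∀ g : L, g * ρ = ρ * g → ∀ x ∈ E, g * x * g⁻¹ ∈ E
  simple : NASimple E
  even : Even (Nat.card E)
  EC : ∀ α : Ω, AU.LL E (MulAction.orbit E α) (A.subgroupOf E)
  EG : ∀ α : Ω, GCon E (MulAction.orbit E α) (A.subgroupOf E)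

/-- C2. `|twoPart A| = 2` and `t ∈ E` (the argument with an involution outside `E` normalising two Sylow 3-subgroups of `E`). -/
def C2_stmt : Prop := ∀ (L Ω : Type) [Group L] [MulAction L Ω] (A E : Subgroup L) (t ρ : L),
  CaseC L Ω A E t ρ → Nat.card (twoPart A) = 2 ∧ t ∈ E ∧ ∀ s : L, IsInv s → s * ρ = ρ * s → s ∈ E

/-- C3. `A ∩ E` consists of the elements of `A` inverted by `t` (up to the involution), the elements of `oddPart A` commuting with `t` centralise
`E`, orders are coprime. -/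
def C3_stmt : Prop := ∀ (L Ω : Type) [Group L] [MulAction L Ω] (A E : Subgroup L) (t ρ : L),
  CaseC L Ω A E t ρ →
  (∀ a ∈ oddPart A, a ∈ E ↔ t * a * t⁻¹ = a⁻¹) ∧
  (∀ a ∈ oddPart A, t * a = a * t → ∀ x ∈ E, a * x = x * a) ∧
  Nat.Coprime (Nat.card {a : L // a ∈ oddPart A ∧ t * a = a * t}) (Nat.card (A ⊓ E : Subgroup L)) ∧
  Nat.card {a : L // a ∈ oddPart A ∧ t * a = a * t} * Nat.card (A ⊓ E : Subgroup L) = Nat.card A

/-- C4. `L` is primitive on `Ω`. -/
def C4_stmt : Prop := ∀ (L Ω : Type) [Group L] [MulAction L Ω] (A E : Subgroup L) (t ρ : L),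
  CaseC L Ω A E t ρ → Prim L Ω

/-- C5. `L` is 2-transitive on `Ω` (SR with `A_+` and `D_E = (A ∩ E) ∪ (A ∩ E) t`). -/
def C5_stmt : Prop := ∀ (L Ω : Type) [Group L] [MulAction L Ω] (A E : Subgroup L) (t ρ : L),
  CaseC L Ω A E t ρ → TwoTrans L Ω

/-- C6. `A_c = A_+` is a normal Hall subgroup of the centraliser of `E` in `C(ρ)`. Proof: `C_M(E)` has odd order, preserves the set of
fixed points of `E_α`, which is `A_c α`; so its orbits on `Ω` are those of `A_c`; LO, NH. -/
def C6_stmt : Prop := ∀ (L Ω : Type) [Group L] [MulAction L Ω] (A E : Subgroup L) (t ρ : L),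
  CaseC L Ω A E t ρ → ∀ x : L, x * ρ = ρ * x → (∀ y ∈ E, x * y = y * x) →
    (x ^ (Nat.card {a : L // a ∈ oddPart A ∧ t * a = a * t}) = 1 ↔
      x ∈ oddPart A ∧ t * x = x * t)

/-- C7. counting: with `Ac` the subgroup of the elements of `oddPart A` commuting with `t`: the index of its normaliser is `1` modulo `|Ac|`, and
`|N(Ac)| |C_E(τ)| = |C(τ)| |E|` for the involution `τ` of `A`. (`E` does not depend on `ρ`: it is generated by the involutions of `C(ρ)`; TI.)
The induction hypothesis is used for the groups `E` of the other elements `ρ'` of prime order of `Ac`. -/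
def C7_stmt : Prop := ∀ (L Ω : Type) [Group L] [MulAction L Ω] (A E Ac : Subgroup L) (t ρ τ : L),
  CaseC L Ω A E t ρ → TGlt (Nat.card L) → (∀ a : L, a ∈ Ac ↔ a ∈ oddPart A ∧ t * a = a * t) →
  τ ∈ A → IsInv τ →
  (Subgroup.normalizer (Ac : Set L)).index ≡ 1 [MOD Nat.card Ac] ∧
  Nat.card (Subgroup.normalizer (Ac : Set L)) * Nat.card {g : L // g ∈ E ∧ g * τ = τ * g} =
    Nat.card {g : L // g * τ = τ * g} * Nat.card E

/-- C8. arithmetic of case (c): `y = 3^c'`, `Q = |Ac|`. -/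
def C8_stmt : Prop := ∀ c c' b Q n : ℕ, 3 ≤ c' → 3 ≤ c → 1 < Q → 3 ^ c + 1 = Q * (3 ^ c' + 1) →
  b ∣ (3 ^ c - 1) / 2 → Nat.Coprime b (3 ^ c + 1) → n * (3 ^ c' * ((3 ^ c' - 1) / 2)) = 3 ^ c * b →
  n ≡ 1 [MOD Q] → False

/-- C9. case (c) is impossible. -/
def C9_stmt : Prop := ∀ (L Ω : Type) [Group L] [MulAction L Ω] (A : Subgroup L) (t : L),
  LL L Ω A → DihW A t → TGlt (Nat.card L) → (∀ a ∈ oddPart A, t * a = a * t) ∨
    (∀ a ∈ oddPart A, t * a = a * t → a = 1)

end Pool.Agent.helper53.AU
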