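import Pool.Agent.helper53.AU.GrpOf
import Pool.Agent.helper75.AU.SpecR2
import Pool.Agent.helper75.AU.SpecW
import Pool.Agent.helper87.AU.SpecQ2

/-!
# Project au: gluing of statements which are implications
-/

namespace Pool.Agent.helper53.AU

theorem Glue_LO (h : Pool.Agent.helper75.AU.BLO_stmt) (h2 : LO_stmt) : Pool.Agent.helper75.AU.LO_stmt :=
  h h2

theorem Glue_SS1 (h : Pool.Agent.helper75.AU.BSS_stmt) (h2 : SR_stmt) : Pool.Agent.helper75.AU.SS1_stmt :=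
  h h2

theorem Glue_BU (h : Pool.Agent.helper75.AU.BBU_stmt) (h2 : BU_stmt) : Pool.Agent.helper75.AU.BU_stmt :=
  h h2

theorem Glue_IG (h : Pool.Agent.helper75.AU.IGF_stmt) (h1 : Pool.Agent.helper75.AU.IGP_stmt)
    (h2 : Pool.Agent.helper75.AU.IGA_stmt) (h3 : Pool.Agent.helper53.AU.RS_stmt)
    (h4 : Pool.Agent.helper53.AU.TG_stmt) (h5 : Pool.Agent.helper75.AU.F2_stmt)
    (h6 : Pool.Agent.helper75.AU.BA1_stmt) : Pool.Agent.helper75.AU.IG_stmt :=
  h h1 h2 h3 h4 h5 h6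

theorem Glue_GR (h : Pool.Agent.helper75.AU.FINR_stmt) (h1 : Pool.Agent.helper75.AU.S45_stmt)
    (h2 : Pool.Agent.helper75.AU.S6_stmt) (h3 : Pool.Agent.helper75.AU.S8_stmt)
    (h4 : Pool.Agent.helper75.AU.IG_stmt) (h5 : Pool.Agent.helper75.AU.S12_stmt) :
    Pool.Agent.helper75.AU.GRP_stmt :=
  h h1 h2 h3 h4 h5

theorem Glue_GEO (h : QG_stmt) : GEO_stmt := h

theorem Glue_LOW (h : QWF_stmt) : LOW_stmt := h

end Pool.Agent.helper53.AU
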