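import Pool.Agent.helper53.AU.SpecTop
import Pool.Agent.helper93.AU.NT

/-!
# Project au: NT_stmt from the theorem of helper93
-/

namespace Pool.Agent.helper53.AU

theorem NT : NT_stmt := Pool.Agent.helper93.AU.NT

end Pool.Agent.helper53.AU
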