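import Pool.Agent.helper53.AU.Defs

/-!
# Project au: specification G1 (finite group toolbox, permutation group lemmas)

Every `XX_stmt : Prop` is a module. File `Pool/Agent/<you>/AU/XX.lean`, namespace
`Pool.Agent.helper53.AU`, `theorem XX (h : YY_stmt) ... : XX_stmt`; any other `YY_stmt` may be taken as
an explicit hypothesis; auxiliary lemmas are prefixed `XX_`. Notes: team-store
MP_97532f_ag_proof_helper53.md.
-/

namespace Pool.Agent.helper53.AU

open scoped Classical

/-! ## Definitions -/

/-- an involution -/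
def IsInv {L : Type} [Group L] (t : L) : Prop := t * t = 1 ∧ t ≠ 1

/-- the odd part of a (cyclic, or abelian) subgroup -/
def oddPart {L : Type} [Group L] (A : Subgroup L) : Subgroup L :=
  Subgroup.closure {a : L | a ∈ A ∧ Odd (orderOf a)}

/-- the 2-part of a (cyclic, or abelian) subgroup -/
def twoPart {L : Type} [Group L] (A : Subgroup L) : Subgroup L :=
  Subgroup.closure {a : L | a ∈ A ∧ ∃ n : ℕ, a ^ (2 ^ n) = 1}

/-- the largest normal subgroup of odd order `O(H)` (see module OC) -/
def oc (H : Type) [Group H] : Subgroup H :=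
  sSup {N : Subgroup H | N.Normal ∧ Odd (Nat.card N)}

/-- `t` is a witness for the dihedral Sylow 2-subgroup `A_2 <t>` -/
def DihW {L : Type} [Group L] (A : Subgroup L) (t : L) : Prop :=
  t * t = 1 ∧ t ∉ A ∧ ∀ a ∈ A, (∃ n : ℕ, a ^ (2 ^ n) = 1) → t * a * t⁻¹ = a⁻¹

/-- every normal subgroup of prime power index, for a prime different from 3, is everything -/
def NoQuot (L : Type) [Group L] : Prop :=
  ∀ N : Subgroup L, N.Normal → ∀ r n : ℕ, r.Prime → r ≠ 3 → N.index = r ^ n → N = ⊤

/-- nonabelian simple -/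
def NASimple (L : Type) [Group L] : Prop := IsSimpleGroup L ∧ ∃ a b : L, a * b ≠ b * a

/-- `D` acts regularly -/
def Regular {L : Type} [Group L] (Ω : Type) [MulAction L Ω] (D : Subgroup L) : Prop :=
  ∀ α β : Ω, ∃! d : D, (d : L) • α = β

/-! ## Toolbox -/

/-- TT (Thompson transfer). `M` of index `2 m`, `m` odd; no conjugate of the element `t`, `t^2 = 1`,
lies in `M`. Then there is a homomorphism to the signs which is `-1` at `t`. Proof: `t` acts on `G ⧸ M`
without fixed points, so as a product of `m` transpositions; take the sign of the action on `G ⧸ M`. -/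
def TT_stmt : Prop := ∀ (G : Type) [Group G] [Finite G] (M : Subgroup G) (t : G),
  (∃ m : ℕ, M.index = 2 * m ∧ Odd m) → t * t = 1 → (∀ g : G, g⁻¹ * t * g ∉ M) →
  ∃ f : G →* ℤˣ, f t = -1

/-- TZ (transfer). `Z(G) ∩ G' ∩ S ≤ S'` for a Sylow subgroup `S`. Proof: the transfer
`V : G → S/S'` satisfies `V z = z^{|G:S|}` for central `z` and kills `G'`. -/
def TZ_stmt : Prop := ∀ (G : Type) [Group G] [Finite G] (p : ℕ) [Fact p.Prime] (S : Sylow p G)
  (z : G), z ∈ Subgroup.center G → z ∈ commutator G → z ∈ (S : Subgroup G) →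
  z ∈ ⁅(S : Subgroup G), (S : Subgroup G)⁆

/-- TB (Burnside's transfer theorem, in Mathlib up to the form). -/
def TB_stmt : Prop := ∀ (G : Type) [Group G] [Finite G] (p : ℕ) [Fact p.Prime] (S : Sylow p G),
  (∀ g : G, (∀ s ∈ (S : Subgroup G), g * s * g⁻¹ ∈ (S : Subgroup G)) →
    ∀ s ∈ (S : Subgroup G), g * s = s * g) →
  ∃ N : Subgroup G, N.Normal ∧ N.index = Nat.card S

/-- TC (cyclic Sylow 2-subgroup: normal 2-complement; Mathlib: `IsCyclic.isComplement'` or the like). -/
def TC_stmt : Prop := ∀ (G : Type) [Group G] [Finite G] (S : Sylow 2 G), IsCyclic S →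
  ∃ N : Subgroup G, N.Normal ∧ Odd (Nat.card N) ∧ N.index = Nat.card S

/-- TX. A cyclic Sylow `p`-subgroup, `x ∈ S` of order `p` with `N(<x>) = C(x)`: normal `p`-complement.
Proof: `N(S)` normalises the unique subgroup of order `p` of `S`, so centralises `x`; a `p'`-element
of `N(S)` acts on the cyclic `p`-group `S` by a power map `s ↦ s^a`, `a = 1 mod p`, of order prime to `p`,
so trivially; the `p`-elements of `N(S)` lie in `S`, abelian. So `N(S) = C(S)`: TB. -/
def TX_stmt : Prop := ∀ (G : Type) [Group G] [Finite G] (p : ℕ) [Fact p.Prime] (S : Sylow p G)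
  (x : G), IsCyclic S → x ∈ (S : Subgroup G) → orderOf x = p →
  (∀ g : G, g * x * g⁻¹ ∈ Subgroup.zpowers x → g * x = x * g) →
  ∃ N : Subgroup G, N.Normal ∧ N.index = Nat.card S

/-- OC. `oc H` is a normal subgroup of odd order, contains every normal subgroup of odd order, and
for `K` normal in `H` every element of `K` whose class in `K` lies in `oc K` lies in `oc H`. -/
def OC_stmt : Prop := ∀ (H : Type) [Group H] [Finite H], (oc H).Normal ∧ Odd (Nat.card (oc H)) ∧
  (∀ N : Subgroup H, N.Normal → Odd (Nat.card N) → N ≤ oc H) ∧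
  (∀ K : Subgroup H, K.Normal → (oc K).map K.subtype ≤ oc H)

/-- MN. `S` a Sylow 2-subgroup of `H` with a cyclic subgroup `C` of index at most 2, `E` a minimal normal
subgroup of `H` of even order: `E` is elementary abelian of order at most 4, or nonabelian simple.
Proof: `T` a minimal normal subgroup of the group `E`. Its `H`-conjugates are minimal normal in `E`, two
different ones commute and intersect trivially; they generate `E`. If `T` is abelian, `E` is
abelian, its elements of order dividing 2 form `E`; `|E ∩ C| ≤ 2` for a Sylow containing it. If `T` is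
nonabelian: `|T|` is even (`E` is a product of commuting conjugates), its Sylow 2-subgroup is not cyclic
(TC: a normal 2-complement is characteristic in `T`, so normal in `E`); if `T ≠ T^h`, then
`T T^h` has a Sylow 2-subgroup `Q × Q'`, `|Q| = |Q'| = m ≥ 4`, of exponent at most `m`, but it has a
cyclic subgroup of index at most 2, so of order at least `m^2/2`. So `T = E` and `E` is simple. -/
def MN_stmt : Prop := ∀ (H : Type) [Group H] [Finite H] (S : Sylow 2 H) (C E : Subgroup H),
  C ≤ (S : Subgroup H) → IsCyclic C → Nat.card S ≤ 2 * Nat.card C → E.Normal → E ≠ ⊥ →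
  (∀ N : Subgroup H, N.Normal → N ≤ E → N = ⊥ ∨ N = E) → Even (Nat.card E) →
  ((∀ x ∈ E, x * x = 1) ∧ Nat.card E ≤ 4) ∨ NASimple E

/-- DC. A finite group `H` with a central involution `τ` in a cyclic 2-group `C` inverted by an
involution `t ∉ C`, `|H : C <t>|` odd (i.e. `|H| = 2 |C| m`, `m` odd): `H` has a normal 2-complement.
Proof: TT for `t` and for `c t` (`c` a generator of `C`) and `M = C` (the only involution of `C` is `τ`,
which is central and is not a conjugate of `t` or `ct`): two sign characters, a product of them is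
`χ` with `χ c = 1`, `χ t = -1`; `ker χ` has the Sylow 2-subgroup `C`: TC; the complement is characteristic
in `ker χ` (all elements of odd order). -/
def DC_stmt : Prop := ∀ (H : Type) [Group H] [Finite H] (C : Subgroup H) (t τ : H) (m n : ℕ),
  IsCyclic C → Nat.card C = 2 ^ n → τ ∈ C → IsInv τ → (∀ h : H, h * τ = τ * h) → t * t = 1 →
  t ∉ C → (∀ c ∈ C, t * c * t⁻¹ = c⁻¹) → Nat.card H = 2 * Nat.card C * m → Odd m →
  ∃ U : Subgroup H, U.Normal ∧ Odd (Nat.card U) ∧ U.index = 2 * Nat.card C

/-! ## S-rings, primitive groups -/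

/-- SR (Schur). `D = A × E` regular, `A` abelian with exactly `r` elements with `a^r = 1`, `E`
centralised by `A`, of order prime to `r`, more than `r` points; for `a ∈ A` all points `a e ω`
(`e ∈ E`, `e ≠ 1`) lie in one orbit of the stabiliser of `ω`. If the action is primitive it is
2-transitive. (For `E = ⊥`: an abelian regular group with a nontrivial cyclic Sylow `r`-subgroup,
composite degree.) Proof: Lemma S of the notes. -/
def SR_stmt : Prop := ∀ (X Ω : Type) [Group X] [MulAction X Ω] [Finite X] [Finite Ω]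
  (A E : Subgroup X) (ω : Ω) (r : ℕ),
  MulAction.IsPretransitive X Ω → Prim X Ω →
  (∀ a ∈ A, ∀ b ∈ A, a * b = b * a) → (∀ a ∈ A, ∀ e ∈ E, a * e = e * a) →
  (∀ α β : Ω, ∃! p : A × E, ((p.1 : X) * (p.2 : X)) • α = β) →
  r.Prime → Nat.card {a : X // a ∈ A ∧ a ^ r = 1} = r → ¬ r ∣ Nat.card E →
  r < Nat.card Ω →
  (∀ a ∈ A, ∀ e₁ ∈ E, ∀ e₂ ∈ E, e₁ ≠ 1 → e₂ ≠ 1 →
    ∃ x : X, x • ω = ω ∧ x • ((a * e₁) • ω) = (a * e₂) • ω) →
  TwoTrans X Ω

/-- BU (Burnside, prime degree; proof of Mueller in the notes, Lemma B). -/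
def BU_stmt : Prop := ∀ (X Ω : Type) [Group X] [MulAction X Ω] [FaithfulSMul X Ω] [Finite X]
  [Finite Ω] (c : X), (Nat.card Ω).Prime → orderOf c = Nat.card Ω →
  TwoTrans X Ω ∨ ∀ g : X, g * c * g⁻¹ ∈ Subgroup.zpowers c

/-- RC. A regular abelian subgroup is its own centraliser (faithful action). Also for a semiregular
abelian subgroup whose orbits are the orbits of the group... only the regular case here. -/
def RC_stmt : Prop := ∀ (X Ω : Type) [Group X] [MulAction X Ω] [FaithfulSMul X Ω] (A : Subgroup X),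
  Nonempty Ω → Regular Ω A → (∀ a ∈ A, ∀ b ∈ A, a * b = b * a) →
  ∀ x : X, (∀ a ∈ A, x * a = a * x) → x ∈ A

/-- PA. A simple group acting faithfully and transitively with an abelian regular subgroup is
primitive. Proof: for an invariant equivalence relation `r ≠ ⊥`, `α ~ β = d α`, `d ≠ 1` in `D`: `d`
commutes with `D`, transitive, so `γ ~ d γ` for all `γ`; so the kernel of `X` on the classes is not trivial
(it contains `d`), so it is `X`. -/
def PA_stmt : Prop := ∀ (X Ω : Type) [Group X] [MulAction X Ω] [FaithfulSMul X Ω] [Finite X]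
  [Finite Ω] (D : Subgroup X), IsSimpleGroup X → MulAction.IsPretransitive X Ω → Regular Ω D →
  (∀ a ∈ D, ∀ b ∈ D, a * b = b * a) → Prim X Ω

/-- LP. Lemma O, primitive case. Proof: `|Ω| = |A|` is odd; if it is composite SR (with `E = ⊥`, any prime
`r` dividing it), if it is prime BU; 2-transitive with at least 2 points: an element exchanging two
points has even order. -/
def LP_stmt : Prop := ∀ (X Ω : Type) [Group X] [MulAction X Ω] [FaithfulSMul X Ω] [Finite X]
  [Finite Ω] (A : Subgroup X), MulAction.IsPretransitive X Ω → Prim X Ω → Odd (Nat.card X) →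
  IsCyclic A → Regular Ω A → ∀ g : X, ∀ a ∈ A, g * a * g⁻¹ ∈ A

/-- LI. Lemma O, gluing of orbits: `A` abelian acts semiregularly, the orbits of `X` are those of `A`, the
stabilisers have order prime to `|A|`; if on every orbit the conjugate `x a x⁻¹` acts as an element of
`A`, then `A` is normal. Proof: `X₀` = the elements of `X` which act on every orbit as some element of
`A`: a subgroup containing all `x a x⁻¹`, abelian, of exponent dividing that of `A`; an element of `X₀`
fixing a point has order prime to `|A|` and dividing a power of `|A|`, so is trivial; so for `y ∈ X₀`,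
if `y ω = a ω` then `y = a`. -/
def LI_stmt : Prop := ∀ (L Ω : Type) [Group L] [MulAction L Ω] [FaithfulSMul L Ω] [Finite L]
  [Finite Ω] (X A : Subgroup L), A ≤ X → (∀ a ∈ A, ∀ b ∈ A, a * b = b * a) →
  (∀ ω : Ω, ∀ x ∈ X, ∃ a ∈ A, x • ω = a • ω) → (∀ a ∈ A, ∀ ω : Ω, a • ω = ω → a = 1) →
  (∀ ω : Ω, Nat.Coprime (Nat.card {x : L // x ∈ X ∧ x • ω = ω}) (Nat.card A)) →
  (∀ ω : Ω, ∀ x ∈ X, ∀ a ∈ A, ∃ a' ∈ A, ∀ y ∈ X, (x * a * x⁻¹) • (y • ω) = a' • (y • ω)) →
  ∀ x ∈ X, ∀ a ∈ A, x * a * x⁻¹ ∈ A

/-- LB. Lemma O, imprimitive step. `X` transitive, `A` cyclic and regular, stabilisers of order prime to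
`|A|`; `r` an invariant equivalence relation, `Y` its kernel. If `A Y` is normal, `A ∩ Y` is normal in
`Y` and contains its centraliser in `Y`, then `A` is normal. Proof: `A ∩ Y` is regular on each class,
it is a normal Hall subgroup of `Y`, so normal in `X`; its centraliser in `A Y` is `A`. -/
def LB_stmt : Prop := ∀ (X Ω : Type) [Group X] [MulAction X Ω] [FaithfulSMul X Ω] [Finite X]
  [Finite Ω] (A : Subgroup X) (r : Setoid Ω), IsCyclic A → Regular Ω A →
  (∀ ω : Ω, Nat.Coprime (Nat.card (MulAction.stabilizer X ω)) (Nat.card A)) →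
  (∀ (g : X) (a b : Ω), r a b → r (g • a) (g • b)) →
  (∀ g : X, ∀ a ∈ A, ∃ a' ∈ A, ∀ ω : Ω, r ((g * a * g⁻¹) • ω) (a' • ω)) →
  (∀ y : X, (∀ ω, r (y • ω) ω) → ∀ a ∈ A, (∀ ω, r (a • ω) ω) → y * a * y⁻¹ ∈ A) →
  (∀ y : X, (∀ ω, r (y • ω) ω) → (∀ a ∈ A, (∀ ω, r (a • ω) ω) → y * a = a * y) → y ∈ A) →
  ∀ g : X, ∀ a ∈ A, g * a * g⁻¹ ∈ A

/-- LO (LEMMA O). `X` of odd order, `A ≤ X` cyclic, semiregular, with the same orbits as `X`, point
stabilisers of order prime to `|A|`: `A` is normal in `X` and contains its centraliser in `X`.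
Proof: induction on `|X| + |Ω|` by LP, LI, LB (centraliser: two permutations commuting with `A` and
agreeing with elements of `A` on each orbit; an element of `C_X(A)` acts on each orbit as an element
of `A`, so lies in the abelian group `X₀` of LI). -/
def LO_stmt : Prop := ∀ (L Ω : Type) [Group L] [MulAction L Ω] [FaithfulSMul L Ω] [Finite L]
  [Finite Ω] (X A : Subgroup L), A ≤ X → IsCyclic A → Odd (Nat.card X) →
  (∀ ω : Ω, ∀ x ∈ X, ∃ a ∈ A, x • ω = a • ω) → (∀ a ∈ A, ∀ ω : Ω, a • ω = ω → a = 1) →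
  (∀ ω : Ω, Nat.Coprime (Nat.card {x : L // x ∈ X ∧ x • ω = ω}) (Nat.card A)) →
  (∀ x ∈ X, ∀ a ∈ A, x * a * x⁻¹ ∈ A) ∧ (∀ x ∈ X, (∀ a ∈ A, x * a = a * x) → x ∈ A)

end Pool.Agent.helper53.AU
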