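import Pool.Agent.helper53.AU.SpecG1

/-!
# Project au: specification G2 (sections 9 and 10 of the notes: classes PL and LL, 2-transitive case)
-/

namespace Pool.Agent.helper53.AU

open scoped Classical

/-- the class PL: as LL, without simplicity, but without normal subgroups of prime power index for
primes different from 3 -/
structure PL (L Ω : Type) [Group L] [MulAction L Ω] (A : Subgroup L) : Prop where
  finL : Finite L
  finΩ : Finite Ω
  nonempty : Nonempty Ω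
  faithful : FaithfulSMul L Ω
  trans : MulAction.IsPretransitive L Ω
  noquot : NoQuot L
  four : 4 ∣ Nat.card Ω
  three : ¬ 3 ∣ Nat.card Ω
  copr : ∀ α : Ω, Nat.Coprime (Nat.card (MulAction.stabilizer L α)) (Nat.card Ω)
  stab : ∀ α : Ω, ThreeCyc (MulAction.stabilizer L α)
  cyc : IsCyclic A
  cardA : 2 * Nat.card A = Nat.card Ω
  semireg : ∀ a ∈ A, ∀ ω : Ω, a • ω = ω → a = 1
  dih : ∃ t : L, DihW A t

/-- PLL. A member of LL is in PL (`Ω` is nonempty because `L` is not trivial and acts faithfully; a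
nontrivial `N` of prime power index is everything by simplicity, and `N = ⊥` would make `L` a
nonabelian simple `r`-group). -/
def PLL_stmt : Prop := ∀ (L Ω : Type) [Group L] [MulAction L Ω] (A : Subgroup L),
  LL L Ω A → PL L Ω A

/-- AB (cyclic group bookkeeping). -/
def AB_stmt : Prop := ∀ (L : Type) [Group L] [Finite L] (A : Subgroup L), IsCyclic A →
  (∀ a : L, a ∈ oddPart A ↔ a ∈ A ∧ Odd (orderOf a)) ∧
  (∀ a : L, a ∈ twoPart A ↔ a ∈ A ∧ ∃ n : ℕ, a ^ (2 ^ n) = 1) ∧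
  Nat.card (oddPart A) * Nat.card (twoPart A) = Nat.card A ∧ Odd (Nat.card (oddPart A)) ∧
  (∃ n : ℕ, Nat.card (twoPart A) = 2 ^ n) ∧ IsCyclic (oddPart A) ∧ IsCyclic (twoPart A) ∧
  (∀ a ∈ A, ∃ b ∈ oddPart A, ∃ c ∈ twoPart A, a = b * c) ∧
  (∀ s t : L, s ∈ A → t ∈ A → IsInv s → IsInv t → s = t) ∧
  (∀ B : Subgroup L, B ≤ A → ∀ g : L, (∀ a ∈ A, g * a * g⁻¹ ∈ A) → ∀ b ∈ B, g * b * g⁻¹ ∈ B)

/-- CM (commutators act trivially on a cyclic normalised subgroup): if `g, h` normalise the cyclic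
subgroup `A`, then `g h g⁻¹ h⁻¹` centralises `A`. -/
def CM_stmt : Prop := ∀ (L : Type) [Group L] [Finite L] (A : Subgroup L), IsCyclic A →
  ∀ g h : L, (∀ a ∈ A, g * a * g⁻¹ ∈ A) → (∀ a ∈ A, h * a * h⁻¹ ∈ A) →
  ∀ a ∈ A, (g * h * g⁻¹ * h⁻¹) * a = a * (g * h * g⁻¹ * h⁻¹)

/-- NH (normal Hall subgroups): `K` a subgroup of `H` normalised by `H` with `|K|` prime to
`|H|/|K|`. Every element of `H` of order dividing `|K|` lies in `K`. -/
def NH_stmt : Prop := ∀ (L : Type) [Group L] [Finite L] (K H : Subgroup L), K ≤ H →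
  (∀ h ∈ H, ∀ x ∈ K, h * x * h⁻¹ ∈ K) → Nat.Coprime (Nat.card K) (Nat.card H / Nat.card K) →
  ∀ h ∈ H, h ^ (Nat.card K) = 1 → h ∈ K

/-- P1. All involutions of `L` are conjugate, and `A` contains an involution.
Proof: `4 ∣ |Ω|`, so `|A|` is even; `|L| = |Ω| |L_α|`, `L_α` of odd order, so `|L : twoPart A|` is `2 *` odd;
TT with `M = twoPart A` and an arbitrary involution `s`: no homomorphism onto the signs exists by
`noquot`, so a conjugate of `s` is in `A`, so equal to the involution of `A`. -/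
def P1_stmt : Prop := ∀ (L Ω : Type) [Group L] [MulAction L Ω] (A : Subgroup L), PL L Ω A →
  (∃ τ ∈ A, IsInv τ) ∧ ∀ s t : L, IsInv s → IsInv t → ∃ g : L, g * s * g⁻¹ = t

/-- P3. The centraliser of an involution is transitive on `Ω`. Proof: for `τ ∈ A`: its centraliser contains
`A` (two orbits of length `|Ω|/2`) and the group `(twoPart A) <t>` whose order is the 2-part of `|Ω|`,
and which is semiregular (stabilisers have odd order). -/
def P3_stmt : Prop := ∀ (L Ω : Type) [Group L] [MulAction L Ω] (A : Subgroup L), PL L Ω A →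
  ∀ τ : L, IsInv τ → ∀ α β : Ω, ∃ g : L, g * τ = τ * g ∧ g • α = β

/-- P4. -/
def P4_stmt : Prop := ∀ (L Ω : Type) [Group L] [MulAction L Ω] (A : Subgroup L), PL L Ω A →
  ∃ ν : ℕ, Odd ν ∧
    (∀ (τ : L) (α : Ω), IsInv τ → Nat.card {g : L // g • α = α ∧ g * τ = τ * g} = ν) ∧
    (∀ τ : L, IsInv τ → Nat.card {g : L // g * τ = τ * g} = ν * Nat.card Ω) ∧
    (∀ α : Ω, Nat.card {t : L // IsInv t} * ν = Nat.card (MulAction.stabilizer L α)) ∧
    (∀ (α : Ω) (s t : L), IsInv s → IsInv t → ∃ g : L, g • α = α ∧ g * s * g⁻¹ = t)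

/-- P5. `H₀ = C(τ)`, `τ` the involution of `A`: `oddPart A` is a normal Hall subgroup of `H₀`, and an
element of odd order of `H₀` centralising it lies in it; an element of `H₀` whose order divides
`|oddPart A|` lies in `oddPart A`.
Proof: DC for `H₀`, `C = twoPart A`, `t`: normal 2-complement `U`, the orbits of `U` have odd length,
`|U| = ν |oddPart A|`, so they are the orbits of `oddPart A`; LO; then NH, CM. -/
def P5_stmt : Prop := ∀ (L Ω : Type) [Group L] [MulAction L Ω] (A : Subgroup L), PL L Ω A →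
  ∀ τ ∈ A, IsInv τ →
    (∀ g : L, g * τ = τ * g → ∀ a ∈ oddPart A, g * a * g⁻¹ ∈ oddPart A) ∧
    (∀ g : L, g * τ = τ * g → Odd (orderOf g) → (∀ a ∈ oddPart A, g * a = a * g) →
      g ∈ oddPart A) ∧
    (∀ g : L, g * τ = τ * g → g ^ (Nat.card (oddPart A)) = 1 → g ∈ oddPart A)

/-- P6. `t` a dihedral witness: `t` commutes with the involution `τ` of `A`, normalises `A`, and
`D = A ∪ A t` is a subgroup, regular on `Ω` and normalised by `C(τ)`.
Proof: `[U, S] ≤ U ∩ C(oddPart A) = oddPart A` for `S = (twoPart A)<t>`, `C(τ) = U S`. -/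
def P6_stmt : Prop := ∀ (L Ω : Type) [Group L] [MulAction L Ω] (A : Subgroup L), PL L Ω A →
  ∀ (τ t : L), τ ∈ A → IsInv τ → DihW A t →
    t * τ = τ * t ∧ (∀ a ∈ A, t * a * t⁻¹ ∈ A) ∧
    (∀ g : L, g ∈ A ⊔ Subgroup.zpowers t ↔ g ∈ A ∨ g * t ∈ A) ∧
    Regular Ω (A ⊔ Subgroup.zpowers t) ∧
    (∀ g : L, g * τ = τ * g → ∀ d ∈ A ⊔ Subgroup.zpowers t, g * d * g⁻¹ ∈ A ⊔ Subgroup.zpowers t)

/-- SY. In a member of PL the Sylow `r`-subgroups are cyclic for primes `r ≥ 5`, and an element of a point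
stabiliser which normalises a subgroup of order `r` of that stabiliser centralises it (`r ≠ 3`).
Proof: `r ∣ |Ω|`: a Sylow `r`-subgroup of `A` is one of `L`; else a Sylow lies in a stabiliser `P : <c>`
and embeds in the quotient by `P`. -/
def SY_stmt : Prop := ∀ (L Ω : Type) [Group L] [MulAction L Ω] (A : Subgroup L), PL L Ω A →
  (∀ r : ℕ, 5 ≤ r → ∀ (_ : Fact r.Prime) (S : Sylow r L), IsCyclic S) ∧
  (∀ (α : Ω) (x g : L), x • α = α → g • α = α → (orderOf x).Prime → orderOf x ≠ 3 →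
    g * x * g⁻¹ ∈ Subgroup.zpowers x → g * x = x * g)

/-- SN. In a member of PL, for `x` of prime order `r ≥ 5` some `g` normalises `<x>` and does
not centralise `x` (otherwise TX and SY give a proper normal subgroup of index a power of `r`). -/
def SN_stmt : Prop := ∀ (L Ω : Type) [Group L] [MulAction L Ω] (A : Subgroup L), PL L Ω A →
  ∀ (x : L), (orderOf x).Prime → 5 ≤ orderOf x →
    ∃ g : L, g * x * g⁻¹ ∈ Subgroup.zpowers x ∧ g * x ≠ x * g

/-- P7. `|C(τ) ∩ L_α|` is a power of 3. Proof: else some `x` of prime order `r ≥ 5` in it (the order is odd),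
`Fix(x) = C_D(x) α` (`D` regular, normalised by `x`), so `C(x)` is transitive on `Fix(x)`; an element
`g` normalising `<x>` maps `α` into `Fix(x)`, so `g = c s`, `c ∈ C(x)`, `s ∈ L_α` normalising `<x>`, so
centralising it (SY): contradiction to SN. -/
def P7_stmt : Prop := ∀ (L Ω : Type) [Group L] [MulAction L Ω] (A : Subgroup L), PL L Ω A →
  ∀ (τ : L) (α : Ω), IsInv τ → ∃ j : ℕ, Nat.card {g : L // g • α = α ∧ g * τ = τ * g} = 3 ^ j

/-- RS (reduction to the simple case, section 9). `L` normal in `Γ`, `[Γ, L] = L`, `L` generated by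
3-elements, in PL: `|Ω| = 4` or `L` is nonabelian simple, so in LL. Proof: section 9 of the notes:
`oc L = 1` by LO for `oc L` and `oc L ⊓ A` (the orbits agree by order), this intersection is cyclic,
characteristic; its subgroups are normalised by `Γ`, centralised by `[Γ,Γ] ≥ L` (CM); transfer (TZ) for the
cyclic Sylow subgroups. A minimal `Γ`-normal subgroup `E ≤ L`... use MN inside `L`: `E` minimal normal in
`L`: order 2 is impossible (all involutions conjugate), Klein four: `E = S`, `C_L(E) = E`, `|L| = 12`,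
`|Ω| = 4`. Nonabelian simple: contains all involutions, all are conjugate in `E` (TT in `E`,
`twoPart A ≤ E` has index `2 *` odd), `Γ = E C(τ)`, `L = E U`, `[Γ,L] = L` forces `L = E (oddPart A)`, and
`L/E` is generated by 3-elements: `L = E`. -/
def RS_stmt : Prop := ∀ (Γ Ω : Type) [Group Γ] [MulAction Γ Ω] [FaithfulSMul Γ Ω] [Finite Γ]
  [Finite Ω] (L : Subgroup Γ) (A : Subgroup L), L.Normal → ⁅(⊤ : Subgroup Γ), L⁆ = L →
  GenThree L → PL L Ω A → Nat.card Ω = 4 ∨ LL L Ω A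

/-! ## Section 10: 2-transitive members of LL -/

/-- X1. (10.1). -/
def X1_stmt : Prop := ∀ (L Ω : Type) [Group L] [MulAction L Ω] (A : Subgroup L), LL L Ω A →
  TwoTrans L Ω → ∃ c b j : ℕ, Odd c ∧ 3 ≤ c ∧ Nat.card Ω = 3 ^ c + 1 ∧ ¬ 3 ∣ b ∧ Odd b ∧
    b ∣ (3 ^ c - 1) / 2 ∧ (∀ α : Ω, Nat.card (MulAction.stabilizer L α) = 3 ^ (c + j) * b) ∧
    (∀ α β : Ω, α ≠ β → Nat.card {g : L // g • α = α ∧ g • β = β} = 3 ^ j * b) ∧
    (∀ (g : L) (α β γ : Ω), α ≠ β → γ ≠ α → γ ≠ β → g • α = α → g • β = β → g • γ = γ →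
      ∃ m : ℕ, g ^ (3 ^ m) = 1)

/-- X2. (10.2): `Z(P_α) ∩ P_β = 1`. -/
def X2_stmt : Prop := ∀ (L Ω : Type) [Group L] [MulAction L Ω] (A : Subgroup L), LL L Ω A →
  TwoTrans L Ω → ∀ (α β : Ω) (z : L), α ≠ β → z • α = α → z • β = β → (∃ m : ℕ, z ^ (3 ^ m) = 1) →
    (∀ p : L, p • α = α → (∃ m : ℕ, p ^ (3 ^ m) = 1) → p * z = z * p) → z = 1

/-- X3. (10.3): `|C(τ) ∩ L_α|` is the 3-part `3^j` of the order of a two-point stabiliser. -/
def X3_stmt : Prop := ∀ (L Ω : Type) [Group L] [MulAction L Ω] (A : Subgroup L), LL L Ω A →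
  TwoTrans L Ω → ∀ (j b : ℕ), ¬ 3 ∣ b →
    (∀ α β : Ω, α ≠ β → Nat.card {g : L // g • α = α ∧ g • β = β} = 3 ^ j * b) →
    ∀ (τ : L) (α : Ω), IsInv τ → Nat.card {g : L // g • α = α ∧ g * τ = τ * g} = 3 ^ j

/-- X4. if `b = (3^c-1)/2` then `j = 0`: `I` the Sylow 3-subgroup of a two-point stabiliser, `N(I)` is
2-transitive on `Fix(I)`, `|Fix(I)| = 3^{c'} + 1`, `c' ≥ 1`, `b ∣ 3^{c'} - 1`; so `c' = c`, `I = 1`. -/
def X4_stmt : Prop := ∀ (L Ω : Type) [Group L] [MulAction L Ω] (A : Subgroup L), LL L Ω A →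
  TwoTrans L Ω → ∀ (c j : ℕ), Nat.card Ω = 3 ^ c + 1 →
    (∀ α β : Ω, α ≠ β → Nat.card {g : L // g • α = α ∧ g • β = β} = 3 ^ j * ((3 ^ c - 1) / 2)) →
    j = 0

/-- XX (summary of section 10, from X1, X3, X4, P4). -/
def XX_stmt : Prop := ∀ (L Ω : Type) [Group L] [MulAction L Ω] (A : Subgroup L), LL L Ω A →
  TwoTrans L Ω → ∃ c b j : ℕ, Odd c ∧ 3 ≤ c ∧ Nat.card Ω = 3 ^ c + 1 ∧ ¬ 3 ∣ b ∧ Odd b ∧
    b ∣ (3 ^ c - 1) / 2 ∧ (∀ α : Ω, Nat.card (MulAction.stabilizer L α) = 3 ^ (c + j) * b) ∧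
    (∀ τ : L, IsInv τ → Nat.card {g : L // g * τ = τ * g} = 3 ^ j * (3 ^ c + 1)) ∧
    (b = (3 ^ c - 1) / 2 → j = 0)

end Pool.Agent.helper53.AU
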