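import Pool.Agent.helper1.AU.BBU
import Pool.Agent.helper1.AU.LM
import Pool.Agent.helper1.AU.P5
import Pool.Agent.helper1.AU.QN0
import Pool.Agent.helper1.AU.QV5
import Pool.Agent.helper1.AU.T7
import Pool.Agent.helper11.AU.PA
import Pool.Agent.helper11.AU.QV4
import Pool.Agent.helper11.AU.QW1
import Pool.Agent.helper11.AU.SM
import Pool.Agent.helper11.AU.W2
import Pool.Agent.helper13.AU.BA1
import Pool.Agent.helper13.AU.F1
import Pool.Agent.helper13.AU.F2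
import Pool.Agent.helper13.AU.FINR
import Pool.Agent.helper13.AU.II4
import Pool.Agent.helper13.AU.QF3
import Pool.Agent.helper13.AU.QF4
import Pool.Agent.helper13.AU.QL0
import Pool.Agent.helper13.AU.QV1
import Pool.Agent.helper13.AU.TR
import Pool.Agent.helper13.AU.TT
import Pool.Agent.helper13.AU.TZ
import Pool.Agent.helper14.AU.C7
import Pool.Agent.helper14.AU.G4
import Pool.Agent.helper14.AU.SR
import Pool.Agent.helper15.AU.C2
import Pool.Agent.helper16.AU.B3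
import Pool.Agent.helper16.AU.B4
import Pool.Agent.helper16.AU.QD0
import Pool.Agent.helper16.AU.QD1
import Pool.Agent.helper17.AU.B1
import Pool.Agent.helper17.AU.CM
import Pool.Agent.helper18.AU.FH
import Pool.Agent.helper18.AU.LB
import Pool.Agent.helper18.AU.M1
import Pool.Agent.helper18.AU.MK
import Pool.Agent.helper18.AU.QK1
import Pool.Agent.helper18.AU.QWF
import Pool.Agent.helper18.AU.RP
import Pool.Agent.helper2.AU.QE6
import Pool.Agent.helper2.AU.QH4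
import Pool.Agent.helper20.AU.P5B
import Pool.Agent.helper20.AU.QR3
import Pool.Agent.helper20.AU.TG
import Pool.Agent.helper21.AU.OC
import Pool.Agent.helper21.AU.QD2
import Pool.Agent.helper21.AU.QE1
import Pool.Agent.helper21.AU.QF6
import Pool.Agent.helper21.AU.QK0
import Pool.Agent.helper21.AU.SY
import Pool.Agent.helper23.AU.MN
import Pool.Agent.helper23.AU.QV2
import Pool.Agent.helper25.AU.G3
import Pool.Agent.helper25.AU.P3
import Pool.Agent.helper25.AU.QV0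
import Pool.Agent.helper25.AU.QW7
import Pool.Agent.helper25.AU.QZ1
import Pool.Agent.helper25.AU.X4
import Pool.Agent.helper26.AU.II3
import Pool.Agent.helper26.AU.RC3
import Pool.Agent.helper3.AU.ML
import Pool.Agent.helper3.AU.T5
import Pool.Agent.helper30.AU.QF10
import Pool.Agent.helper31.AU.QA2
import Pool.Agent.helper31.AU.QF9
import Pool.Agent.helper33.AU.B2
import Pool.Agent.helper33.AU.BA5
import Pool.Agent.helper33.AU.BSS
import Pool.Agent.helper33.AU.QD4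
import Pool.Agent.helper38.AU.QF8
import Pool.Agent.helper4.AU.BA2
import Pool.Agent.helper4.AU.C8
import Pool.Agent.helper4.AU.IGA
import Pool.Agent.helper4.AU.QM1
import Pool.Agent.helper4.AU.S62
import Pool.Agent.helper43.AU.BA4
import Pool.Agent.helper43.AU.ID
import Pool.Agent.helper43.AU.IGF
import Pool.Agent.helper43.AU.LI
import Pool.Agent.helper43.AU.NUM
import Pool.Agent.helper43.AU.QE2
import Pool.Agent.helper43.AU.QN1
import Pool.Agent.helper43.AU.S45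
import Pool.Agent.helper44.AU.II2
import Pool.Agent.helper44.AU.II5
import Pool.Agent.helper44.AU.II6
import Pool.Agent.helper44.AU.QF5
import Pool.Agent.helper44.AU.QH0
import Pool.Agent.helper45.AU.II7
import Pool.Agent.helper45.AU.N1
import Pool.Agent.helper45.AU.PI
import Pool.Agent.helper45.AU.QE4
import Pool.Agent.helper45.AU.QN2
import Pool.Agent.helper45.AU.QW5
import Pool.Agent.helper45.AU.RC4
import Pool.Agent.helper45.AU.SN
import Pool.Agent.helper46.AU.C5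
import Pool.Agent.helper46.AU.IV
import Pool.Agent.helper46.AU.QF11
import Pool.Agent.helper46.AU.QL1
import Pool.Agent.helper46.AU.QW3
import Pool.Agent.helper46.AU.S8C
import Pool.Agent.helper46.AU.ZS
import Pool.Agent.helper52.AU.C3
import Pool.Agent.helper52.AU.QA3
import Pool.Agent.helper52.AU.QK4
import Pool.Agent.helper52.AU.TC
import Pool.Agent.helper53.AU.DC
import Pool.Agent.helper53.AU.FIN
import Pool.Agent.helper53.AU.Glue
import Pool.Agent.helper53.AU.GrpOf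
import Pool.Agent.helper53.AU.NT
import Pool.Agent.helper53.AU.QG
import Pool.Agent.helper53.AU.SpecG1
import Pool.Agent.helper53.AU.SpecG2
import Pool.Agent.helper53.AU.SpecG3
import Pool.Agent.helper53.AU.SpecTop
import Pool.Agent.helper54.AU.C4
import Pool.Agent.helper54.AU.M2
import Pool.Agent.helper57.AU.QF7
import Pool.Agent.helper58.AU.P5A
import Pool.Agent.helper58.AU.QH1
import Pool.Agent.helper58.AU.QV6
import Pool.Agent.helper58.AU.S64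
import Pool.Agent.helper6.AU.C9
import Pool.Agent.helper6.AU.NH
import Pool.Agent.helper61.AU.CO
import Pool.Agent.helper61.AU.G5
import Pool.Agent.helper61.AU.PLL
import Pool.Agent.helper61.AU.QE3
import Pool.Agent.helper61.AU.QZ3
import Pool.Agent.helper61.AU.S63
import Pool.Agent.helper64.AU.QD3
import Pool.Agent.helper64.AU.QW0
import Pool.Agent.helper65.AU.LP
import Pool.Agent.helper65.AU.P4
import Pool.Agent.helper65.AU.QL2
import Pool.Agent.helper65.AU.S6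
import Pool.Agent.helper65.AU.X3
import Pool.Agent.helper65.AU.XX
import Pool.Agent.helper71.AU.B6
import Pool.Agent.helper71.AU.BU
import Pool.Agent.helper72.AU.LO
import Pool.Agent.helper72.AU.P6
import Pool.Agent.helper72.AU.QW4
import Pool.Agent.helper72.AU.QW8
import Pool.Agent.helper72.AU.W1
import Pool.Agent.helper74.AU.QU
import Pool.Agent.helper74.AU.QW2
import Pool.Agent.helper75.AU.SpecR
import Pool.Agent.helper75.AU.SpecR2
import Pool.Agent.helper75.AU.SpecW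
import Pool.Agent.helper75.AU.T4
import Pool.Agent.helper75.AU.W3
import Pool.Agent.helper78.AU.F3ac
import Pool.Agent.helper78.AU.F3b
import Pool.Agent.helper78.AU.F4
import Pool.Agent.helper78.AU.RS
import Pool.Agent.helper78.AU.S61
import Pool.Agent.helper78.AU.S80
import Pool.Agent.helper78.AU.X2
import Pool.Agent.helper79.AU.HIL
import Pool.Agent.helper79.AU.P5C
import Pool.Agent.helper79.AU.P5D
import Pool.Agent.helper79.AU.QH3
import Pool.Agent.helper79.AU.QH5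
import Pool.Agent.helper79.AU.S8
import Pool.Agent.helper79.AU.X1
import Pool.Agent.helper84.AU.AB
import Pool.Agent.helper84.AU.BA3
import Pool.Agent.helper84.AU.BLO
import Pool.Agent.helper84.AU.T6
import Pool.Agent.helper85.AU.M3
import Pool.Agent.helper87.AU.QA1
import Pool.Agent.helper87.AU.QD6
import Pool.Agent.helper87.AU.QE5
import Pool.Agent.helper87.AU.QK2
import Pool.Agent.helper87.AU.QK5
import Pool.Agent.helper87.AU.SpecQ1
import Pool.Agent.helper87.AU.SpecQ2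
import Pool.Agent.helper89.AU.S12
import Pool.Agent.helper91.AU.II1
import Pool.Agent.helper91.AU.QF2
import Pool.Agent.helper91.AU.QK3
import Pool.Agent.helper92.AU.B5
import Pool.Agent.helper92.AU.IGP
import Pool.Agent.helper92.AU.P7
import Pool.Agent.helper92.AU.QR1
import Pool.Agent.helper93.AU.P1
import Pool.Agent.helper93.AU.QWA
import Pool.Agent.helper93.AU.TX
import Pool.Agent.helper97.AU.C1
import Pool.Agent.helper97.AU.G2
import Pool.Agent.helper97.AU.QD5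
import Pool.Agent.helper97.AU.QR4
import Pool.Agent.helper97.AU.QW6
import Pool.Agent.helper97.AU.TB
import Pool.Agent.helper98.AU.QF1
import Pool.Agent.helper99.AU.C6
import Pool.Agent.helper99.AU.G1
import Pool.Agent.helper99.AU.QR2
import Pool.Agent.helper99.AU.QR5
import Pool.Agent.helper99.AU.QW9

/-!
# Project au: assembly (generated)
-/

namespace Pool.Agent.helper53.AU.Asm

theorem a75_FINR : Pool.Agent.helper75.AU.FINR_stmt :=
  Pool.Agent.helper75.AU.FINR 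

theorem a75_BA5 : Pool.Agent.helper75.AU.BA5_stmt :=
  Pool.Agent.helper75.AU.BA5 

theorem a75_BA1 : Pool.Agent.helper75.AU.BA1_stmt :=
  Pool.Agent.helper75.AU.BA1 

theorem a75_BA3 : Pool.Agent.helper75.AU.BA3_stmt :=
  Pool.Agent.helper75.AU.BA3 a75_BA1

theorem a75_BA4 : Pool.Agent.helper75.AU.BA4_stmt :=
  Pool.Agent.helper75.AU.BA4 

theorem a75_F1 : Pool.Agent.helper75.AU.F1_stmt :=
  Pool.Agent.helper75.AU.F1 a75_BA1

theorem a75_T4 : Pool.Agent.helper75.AU.T4_stmt :=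
  Pool.Agent.helper75.AU.T4 a75_BA1 a75_BA3 a75_BA4 a75_F1

theorem a75_T5 : Pool.Agent.helper75.AU.T5_stmt :=
  Pool.Agent.helper75.AU.T5 

theorem a75_F3c : Pool.Agent.helper75.AU.F3c_stmt :=
  Pool.Agent.helper75.AU.F3c 

theorem a75_LM : Pool.Agent.helper75.AU.LM_stmt :=
  Pool.Agent.helper75.AU.LM a75_F3c

theorem a75_T6 : Pool.Agent.helper75.AU.T6_stmt :=
  Pool.Agent.helper75.AU.T6 a75_LM a75_BA1 a75_BA3 a75_BA4

theorem a75_F3b : Pool.Agent.helper75.AU.F3b_stmt :=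
  Pool.Agent.helper75.AU.F3b 

theorem a75_T7 : Pool.Agent.helper75.AU.T7_stmt :=
  Pool.Agent.helper75.AU.T7 a75_F3b

theorem a75_C3 : Pool.Agent.helper75.AU.C3_stmt :=
  Pool.Agent.helper75.AU.C3 

theorem a75_W1 : Pool.Agent.helper75.AU.W1_stmt :=
  Pool.Agent.helper75.AU.W1 a75_BA1 a75_BA3 a75_BA4 a75_C3 a75_F3c

theorem a75_W2 : Pool.Agent.helper75.AU.W2_stmt :=
  Pool.Agent.helper75.AU.W2 a75_BA1 a75_BA3 a75_C3 a75_F3c a75_LM a75_W1

theorem a75_F2 : Pool.Agent.helper75.AU.F2_stmt :=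
  Pool.Agent.helper75.AU.F2 a75_BA1 a75_BA3 a75_F1

theorem a75_NUM : Pool.Agent.helper75.AU.NUM_stmt :=
  Pool.Agent.helper75.AU.NUM a75_BA1 a75_C3

theorem a75_W3 : Pool.Agent.helper75.AU.W3_stmt :=
  Pool.Agent.helper75.AU.W3 a75_BA1 a75_BA3 a75_BA4 a75_C3 a75_F2 a75_F3c a75_NUM

theorem a75_F4 : Pool.Agent.helper75.AU.F4_stmt :=
  Pool.Agent.helper75.AU.F4 a75_F2

theorem a75_P5D : Pool.Agent.helper75.AU.P5D_stmt :=
  Pool.Agent.helper75.AU.P5D a75_BA1 a75_BA3 a75_BA4 a75_C3 a75_F4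

theorem a75_P5A : Pool.Agent.helper75.AU.P5A_stmt :=
  Pool.Agent.helper75.AU.P5A a75_BA1 a75_BA3 a75_BA4 a75_F1 a75_F2

theorem a75_P5B : Pool.Agent.helper75.AU.P5B_stmt :=
  Pool.Agent.helper75.AU.P5B a75_BA1 a75_BA3 a75_BA4 a75_F1

theorem a75_P5C : Pool.Agent.helper75.AU.P5C_stmt :=
  Pool.Agent.helper75.AU.P5C a75_BA1 a75_BA3 a75_BA4 a75_C3 a75_F1 a75_F4

theorem a75_S45 : Pool.Agent.helper75.AU.S45_stmt :=
  Pool.Agent.helper75.AU.S45 a75_BA5 a75_T4 a75_T5 a75_T6 a75_T7 a75_W2 a75_W3 a75_P5D a75_P5A a75_P5B a75_P5C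

theorem a75_BA2 : Pool.Agent.helper75.AU.BA2_stmt :=
  Pool.Agent.helper75.AU.BA2 

theorem a75_S61 : Pool.Agent.helper75.AU.S61_stmt :=
  Pool.Agent.helper75.AU.S61 a75_BA1 a75_BA3 a75_BA4

theorem a75_N1 : Pool.Agent.helper75.AU.N1_stmt :=
  Pool.Agent.helper75.AU.N1 a75_BA1 a75_BA2 a75_S61

theorem a75_TR : Pool.Agent.helper75.AU.TR_stmt :=
  Pool.Agent.helper75.AU.TR 

theorem a75_ZS : Pool.Agent.helper75.AU.ZS_stmt :=
  Pool.Agent.helper75.AU.ZS 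

theorem a75_F3a : Pool.Agent.helper75.AU.F3a_stmt :=
  Pool.Agent.helper75.AU.F3a 

theorem a75_S62 : Pool.Agent.helper75.AU.S62_stmt :=
  Pool.Agent.helper75.AU.S62 a75_TR a75_ZS a75_F3a a75_F3b

theorem a75_PI : Pool.Agent.helper75.AU.PI_stmt :=
  Pool.Agent.helper75.AU.PI a75_BA1

theorem a75_CO : Pool.Agent.helper75.AU.CO_stmt :=
  Pool.Agent.helper75.AU.CO a75_BA1

theorem a75_S63 : Pool.Agent.helper75.AU.S63_stmt :=
  Pool.Agent.helper75.AU.S63 a75_BA1 a75_BA3 a75_F1 a75_CO a75_PI a75_S62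

theorem a75_C4 : Pool.Agent.helper75.AU.C4_stmt :=
  Pool.Agent.helper75.AU.RC4 a75_BA1

theorem a75_S64 : Pool.Agent.helper75.AU.S64_stmt :=
  Pool.Agent.helper75.AU.S64 a75_BA1 a75_BA3 a75_BA4 a75_C4

theorem a75_S6 : Pool.Agent.helper75.AU.S6_stmt :=
  Pool.Agent.helper75.AU.S6 a75_BA1 a75_NUM a75_N1 a75_S61 a75_S62 a75_PI a75_S63 a75_S64

theorem a75_S80 : Pool.Agent.helper75.AU.S80_stmt :=
  Pool.Agent.helper75.AU.S80 

theorem a75_S8C : Pool.Agent.helper75.AU.S8C_stmt :=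
  Pool.Agent.helper75.AU.S8C a75_BA1 a75_F3a a75_F3b

theorem a75_II1 : Pool.Agent.helper75.AU.II1_stmt :=
  Pool.Agent.helper75.AU.II1 a75_TR

theorem a75_BLO : Pool.Agent.helper75.AU.BLO_stmt :=
  Pool.Agent.helper75.AU.BLO 

theorem a53_SR : Pool.Agent.helper53.AU.SR_stmt :=
  Pool.Agent.helper53.AU.SR 

theorem a53_BU : Pool.Agent.helper53.AU.BU_stmt :=
  Pool.Agent.helper53.AU.BU 

theorem a53_LP : Pool.Agent.helper53.AU.LP_stmt :=
  Pool.Agent.helper53.AU.LP a53_SR a53_BU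

theorem a53_LI : Pool.Agent.helper53.AU.LI_stmt :=
  Pool.Agent.helper53.AU.LI 

theorem a53_NH : Pool.Agent.helper53.AU.NH_stmt :=
  Pool.Agent.helper53.AU.NH 

theorem a53_LB : Pool.Agent.helper53.AU.LB_stmt :=
  Pool.Agent.helper53.AU.LB a53_NH

theorem a53_LO : Pool.Agent.helper53.AU.LO_stmt :=
  Pool.Agent.helper53.AU.LO a53_LP a53_LI a53_LB

theorem a75_LO : Pool.Agent.helper75.AU.LO_stmt :=
  Pool.Agent.helper53.AU.Glue_LO a75_BLO a53_LO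

theorem a75_II2 : Pool.Agent.helper75.AU.II2_stmt :=
  Pool.Agent.helper75.AU.II2 a75_LO a75_II1

theorem a75_II3 : Pool.Agent.helper75.AU.II3_stmt :=
  Pool.Agent.helper75.AU.II3 a75_II2

theorem a75_II4 : Pool.Agent.helper75.AU.II4_stmt :=
  Pool.Agent.helper75.AU.II4 a75_LO a75_II3

theorem a75_FH : Pool.Agent.helper75.AU.FH_stmt :=
  Pool.Agent.helper75.AU.FH 

theorem a75_II5 : Pool.Agent.helper75.AU.II5_stmt :=
  Pool.Agent.helper75.AU.II5 a75_II4 a75_FH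

theorem a75_II6 : Pool.Agent.helper75.AU.II6_stmt :=
  Pool.Agent.helper75.AU.II6 a75_II5

theorem a75_BSS : Pool.Agent.helper75.AU.BSS_stmt :=
  Pool.Agent.helper75.AU.BSS 

theorem a75_SS1 : Pool.Agent.helper75.AU.SS1_stmt :=
  Pool.Agent.helper53.AU.Glue_SS1 a75_BSS a53_SR

theorem a75_BBU : Pool.Agent.helper75.AU.BBU_stmt :=
  Pool.Agent.helper75.AU.BBU 

theorem a75_BU : Pool.Agent.helper75.AU.BU_stmt :=
  Pool.Agent.helper53.AU.Glue_BU a75_BBU a53_BU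

theorem a75_II7 : Pool.Agent.helper75.AU.II7_stmt :=
  Pool.Agent.helper75.AU.II7 a75_II1 a75_II6 a75_SS1 a75_BU

theorem a75_MK : Pool.Agent.helper75.AU.MK_stmt :=
  Pool.Agent.helper75.AU.MK 

theorem a75_ML : Pool.Agent.helper75.AU.ML_stmt :=
  Pool.Agent.helper75.AU.ML 

theorem a75_SM : Pool.Agent.helper75.AU.SM_stmt :=
  Pool.Agent.helper75.AU.SM a75_MK a75_ML

theorem a75_RP : Pool.Agent.helper75.AU.RP_stmt :=
  Pool.Agent.helper75.AU.RP 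

theorem a75_S8 : Pool.Agent.helper75.AU.S8_stmt :=
  Pool.Agent.helper75.AU.S8 a75_BA1 a75_PI a75_S80 a75_S8C a75_II7 a75_SM a75_RP

theorem a75_IGF : Pool.Agent.helper75.AU.IGF_stmt :=
  Pool.Agent.helper75.AU.IGF 

theorem a75_IV : Pool.Agent.helper75.AU.IV_stmt :=
  Pool.Agent.helper75.AU.IV a75_BA1 a75_F3b

theorem a75_QU : Pool.Agent.helper75.AU.QU_stmt :=
  Pool.Agent.helper75.AU.QU 

theorem a75_ID : Pool.Agent.helper75.AU.ID_stmt :=
  Pool.Agent.helper75.AU.ID a75_IV a75_QU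

theorem a75_IGP : Pool.Agent.helper75.AU.IGP_stmt :=
  Pool.Agent.helper75.AU.IGP a75_BA1 a75_BA2 a75_IV a75_ID

theorem a75_IGA : Pool.Agent.helper75.AU.IGA_stmt :=
  Pool.Agent.helper75.AU.IGA a75_BA1 a75_C4

theorem a53_TT : Pool.Agent.helper53.AU.TT_stmt :=
  Pool.Agent.helper53.AU.TT 

theorem a53_TZ : Pool.Agent.helper53.AU.TZ_stmt :=
  Pool.Agent.helper53.AU.TZ 

theorem a53_OC : Pool.Agent.helper53.AU.OC_stmt :=
  Pool.Agent.helper53.AU.OC 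

theorem a53_TC : Pool.Agent.helper53.AU.TC_stmt :=
  Pool.Agent.helper53.AU.TC 

theorem a53_MN : Pool.Agent.helper53.AU.MN_stmt :=
  Pool.Agent.helper53.AU.MN a53_TC a53_OC

theorem a53_AB : Pool.Agent.helper53.AU.AB_stmt :=
  Pool.Agent.helper53.AU.AB 

theorem a53_CM : Pool.Agent.helper53.AU.CM_stmt :=
  Pool.Agent.helper53.AU.CM 

theorem a53_P1 : Pool.Agent.helper53.AU.P1_stmt :=
  Pool.Agent.helper53.AU.P1 a53_TT a53_AB

theorem a53_DC : Pool.Agent.helper53.AU.DC_stmt :=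
  Pool.Agent.helper53.AU.DC a53_TT a53_TC a53_AB

theorem a53_P3 : Pool.Agent.helper53.AU.P3_stmt :=
  Pool.Agent.helper53.AU.P3 a53_P1 a53_AB

theorem a53_P4 : Pool.Agent.helper53.AU.P4_stmt :=
  Pool.Agent.helper53.AU.P4 a53_P1 a53_P3

theorem a53_P5 : Pool.Agent.helper53.AU.P5_stmt :=
  Pool.Agent.helper53.AU.P5 a53_AB a53_NH a53_DC a53_LO a53_P4

theorem a53_SY : Pool.Agent.helper53.AU.SY_stmt :=
  Pool.Agent.helper53.AU.SY 

theorem a53_RS : Pool.Agent.helper53.AU.RS_stmt :=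
  Pool.Agent.helper53.AU.RS a53_TT a53_TZ a53_OC a53_MN a53_LO a53_AB a53_CM a53_NH a53_P1 a53_P5 a53_SY

theorem a53_PLL : Pool.Agent.helper53.AU.PLL_stmt :=
  Pool.Agent.helper53.AU.PLL 

theorem a53_P6 : Pool.Agent.helper53.AU.P6_stmt :=
  Pool.Agent.helper53.AU.P6 a53_P4 a53_P5 a53_AB a53_CM a53_DC

theorem a53_TB : Pool.Agent.helper53.AU.TB_stmt :=
  Pool.Agent.helper53.AU.TB 

theorem a53_TX : Pool.Agent.helper53.AU.TX_stmt :=
  Pool.Agent.helper53.AU.TX a53_TB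

theorem a53_SN : Pool.Agent.helper53.AU.SN_stmt :=
  Pool.Agent.helper53.AU.SN a53_TX a53_SY

theorem a53_X1 : Pool.Agent.helper53.AU.X1_stmt :=
  Pool.Agent.helper53.AU.X1 a53_PLL a53_SY a53_SN

theorem a53_P7 : Pool.Agent.helper53.AU.P7_stmt :=
  Pool.Agent.helper53.AU.P7 a53_P1 a53_P4 a53_P6 a53_SY a53_SN

theorem a53_X2 : Pool.Agent.helper53.AU.X2_stmt :=
  Pool.Agent.helper53.AU.X2 a53_X1

theorem a53_X3 : Pool.Agent.helper53.AU.X3_stmt :=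
  Pool.Agent.helper53.AU.X3 a53_PLL a53_P4 a53_P7 a53_X1 a53_X2

theorem a53_X4 : Pool.Agent.helper53.AU.X4_stmt :=
  Pool.Agent.helper53.AU.X4 a53_X1

theorem a53_XX : Pool.Agent.helper53.AU.XX_stmt :=
  Pool.Agent.helper53.AU.XX a53_PLL a53_P4 a53_X1 a53_X3 a53_X4

theorem a53_G1 : Pool.Agent.helper53.AU.G1_stmt :=
  Pool.Agent.helper53.AU.G1 a53_P1 a53_P4 a53_P6 a53_PLL

theorem a53_G2 : Pool.Agent.helper53.AU.G2_stmt :=
  Pool.Agent.helper53.AU.G2 a53_PLL a53_AB a53_TC a53_NH a53_LO a53_P5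

theorem a53_G3 : Pool.Agent.helper53.AU.G3_stmt :=
  Pool.Agent.helper53.AU.G3 a53_G2 a53_P1 a53_P5 a53_PLL a53_AB

theorem a53_G4 : Pool.Agent.helper53.AU.G4_stmt :=
  Pool.Agent.helper53.AU.G4 

theorem a53_G5 : Pool.Agent.helper53.AU.G5_stmt :=
  Pool.Agent.helper53.AU.G5 a53_PLL a53_AB a53_P1 a53_P4 a53_P6 a53_XX a53_G1 a53_G3 a53_G4

theorem a53_M1 : Pool.Agent.helper53.AU.M1_stmt :=
  Pool.Agent.helper53.AU.M1 a53_OC a53_LO a53_NH a53_AB a53_P1 a53_P6 a53_PLL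

theorem a53_M2 : Pool.Agent.helper53.AU.M2_stmt :=
  Pool.Agent.helper53.AU.M2 a53_M1 a53_CM a53_TC a53_TZ a53_TB a53_DC a53_MN a53_OC a53_AB

theorem a53_M3 : Pool.Agent.helper53.AU.M3_stmt :=
  Pool.Agent.helper53.AU.M3 a53_TC a53_AB

theorem a53_B1 : Pool.Agent.helper53.AU.B1_stmt :=
  Pool.Agent.helper53.AU.B1 a53_M2 a53_M3 a53_PLL a53_P1 a53_P4 a53_P5 a53_P6 a53_AB

theorem a53_B2 : Pool.Agent.helper53.AU.B2_stmt :=
  Pool.Agent.helper53.AU.B2 a53_AB a53_NH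

theorem a53_B3 : Pool.Agent.helper53.AU.B3_stmt :=
  Pool.Agent.helper53.AU.B3 a53_PLL a53_AB a53_P1 a53_P5 a53_MN a53_B1 a53_M3

theorem a53_PA : Pool.Agent.helper53.AU.PA_stmt :=
  Pool.Agent.helper53.AU.PA 

theorem a53_B4 : Pool.Agent.helper53.AU.B4_stmt :=
  Pool.Agent.helper53.AU.B4 a53_PLL a53_AB a53_P1 a53_P6 a53_PA a53_SR

theorem a53_B5 : Pool.Agent.helper53.AU.B5_stmt :=
  Pool.Agent.helper53.AU.B5 

theorem a53_B6 : Pool.Agent.helper53.AU.B6_stmt :=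
  Pool.Agent.helper53.AU.B6 a53_B1 a53_B2 a53_B3 a53_B4 a53_B5 a53_XX a53_P5 a53_P1 a53_PLL a53_AB

theorem a53_C1 : Pool.Agent.helper53.AU.C1_stmt :=
  Pool.Agent.helper53.AU.C1 a53_M2 a53_PLL a53_AB a53_NH a53_P1 a53_P5

theorem a53_C2 : Pool.Agent.helper53.AU.C2_stmt :=
  Pool.Agent.helper53.AU.C2 a53_PLL a53_AB a53_P1 a53_P4 a53_P7

theorem a53_C3 : Pool.Agent.helper53.AU.C3_stmt :=
  Pool.Agent.helper53.AU.C3 a53_PLL a53_P6 a53_AB a53_C2

theorem a53_C4 : Pool.Agent.helper53.AU.C4_stmt :=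
  Pool.Agent.helper53.AU.C4 a53_PLL a53_P1 a53_P4 a53_P6 a53_AB

theorem a53_C5 : Pool.Agent.helper53.AU.C5_stmt :=
  Pool.Agent.helper53.AU.C5 a53_SR a53_PLL a53_AB a53_P1 a53_P6 a53_C2 a53_C3 a53_C4

theorem a53_C6 : Pool.Agent.helper53.AU.C6_stmt :=
  Pool.Agent.helper53.AU.C6 a53_C2 a53_C3 a53_P1 a53_P6 a53_PLL a53_AB a53_LO a53_NH

theorem a53_C7 : Pool.Agent.helper53.AU.C7_stmt :=
  Pool.Agent.helper53.AU.C7 a53_AB a53_PLL a53_P1 a53_P4 a53_P5 a53_NH a53_M3 a53_C1 a53_C2 a53_C3 a53_C6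

theorem a53_C8 : Pool.Agent.helper53.AU.C8_stmt :=
  Pool.Agent.helper53.AU.C8 

theorem a53_C9 : Pool.Agent.helper53.AU.C9_stmt :=
  Pool.Agent.helper53.AU.C9 a53_C1 a53_M3 a53_C2 a53_C3 a53_C5 a53_C7 a53_C8 a53_XX a53_AB a53_PLL a53_P1

theorem a53_TG : Pool.Agent.helper53.AU.TG_stmt :=
  Pool.Agent.helper53.AU.TG a53_PLL a53_AB a53_P1 a53_P6 a53_G5 a53_B6 a53_C9

theorem a75_IG : Pool.Agent.helper75.AU.IG_stmt :=
  Pool.Agent.helper53.AU.Glue_IG a75_IGF a75_IGP a75_IGA a53_RS a53_TG a75_F2 a75_BA1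

theorem a75_S12 : Pool.Agent.helper75.AU.S12_stmt :=
  Pool.Agent.helper75.AU.S12 

theorem a75_GRP : Pool.Agent.helper75.AU.GRP_stmt :=
  Pool.Agent.helper53.AU.Glue_GR a75_FINR a75_S45 a75_S6 a75_S8 a75_IG a75_S12

theorem a53_GRP : Pool.Agent.helper53.AU.GRP_stmt :=
  Pool.Agent.helper53.AU.GrpOf a75_GRP

theorem a53_QL0 : Pool.Agent.helper53.AU.QL0_stmt :=
  Pool.Agent.helper53.AU.QL0 

theorem a53_QV1 : Pool.Agent.helper53.AU.QV1_stmt :=
  Pool.Agent.helper53.AU.QV1 a53_QL0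

theorem a53_QF1 : Pool.Agent.helper53.AU.QF1_stmt :=
  Pool.Agent.helper53.AU.QF1 a53_QV1

theorem a53_QF2 : Pool.Agent.helper53.AU.QF2_stmt :=
  Pool.Agent.helper53.AU.QF2 a53_QV1 a53_QF1

theorem a53_QF3 : Pool.Agent.helper53.AU.QF3_stmt :=
  Pool.Agent.helper53.AU.QF3 a53_QV1 a53_QF1 a53_QF2

theorem a53_QF4 : Pool.Agent.helper53.AU.QF4_stmt :=
  Pool.Agent.helper53.AU.QF4 a53_QV1 a53_QF1

theorem a53_QF5 : Pool.Agent.helper53.AU.QF5_stmt :=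
  Pool.Agent.helper53.AU.QF5 a53_QF1 a53_QF2 a53_QF3 a53_QF4

theorem a53_QF6 : Pool.Agent.helper53.AU.QF6_stmt :=
  Pool.Agent.helper53.AU.QF6 a53_QF3 a53_QF4 a53_QF5

theorem a53_QF7 : Pool.Agent.helper53.AU.QF7_stmt :=
  Pool.Agent.helper53.AU.QF7 a53_QF4 a53_QF5

theorem a53_QF8 : Pool.Agent.helper53.AU.QF8_stmt :=
  Pool.Agent.helper53.AU.QF8 a53_QF1 a53_QF4

theorem a53_QF9 : Pool.Agent.helper53.AU.QF9_stmt :=
  Pool.Agent.helper53.AU.QF9 a53_QF1 a53_QF2 a53_QF3 a53_QF4 a53_QV1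

theorem a53_QF10 : Pool.Agent.helper53.AU.QF10_stmt :=
  Pool.Agent.helper53.AU.QF10 a53_QF8 a53_QF7 a53_QF9

theorem a53_QL1 : Pool.Agent.helper53.AU.QL1_stmt :=
  Pool.Agent.helper53.AU.QL1 a53_QL0

theorem a53_QV2 : Pool.Agent.helper53.AU.QV2_stmt :=
  Pool.Agent.helper53.AU.QV2 

theorem a53_QZ1 : Pool.Agent.helper53.AU.QZ1_stmt :=
  Pool.Agent.helper53.AU.QZ1 a53_QL1 a53_QV2

theorem a53_QV4 : Pool.Agent.helper53.AU.QV4_stmt :=
  Pool.Agent.helper53.AU.QV4 a53_QZ1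

theorem a53_QF11 : Pool.Agent.helper53.AU.QF11_stmt :=
  Pool.Agent.helper53.AU.QF11 a53_QV1 a53_QV4

theorem a53_QL2 : Pool.Agent.helper53.AU.QL2_stmt :=
  Pool.Agent.helper53.AU.QL2 a53_QL0

theorem a53_QK0 : Pool.Agent.helper53.AU.QK0_stmt :=
  Pool.Agent.helper53.AU.QK0 a53_QL0

theorem a53_QV0 : Pool.Agent.helper53.AU.QV0_stmt :=
  Pool.Agent.helper53.AU.QV0 a53_QK0

theorem a53_QR1 : Pool.Agent.helper53.AU.QR1_stmt :=
  Pool.Agent.helper53.AU.QR1 a53_QV0 a53_QV1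

theorem a53_QZ3 : Pool.Agent.helper53.AU.QZ3_stmt :=
  Pool.Agent.helper53.AU.QZ3 a53_QL2 a53_QV4 a53_QR1 a53_QZ1

theorem a53_QV5 : Pool.Agent.helper53.AU.QV5_stmt :=
  Pool.Agent.helper53.AU.QV5 a53_QZ3 a53_QV4

theorem a53_QV6 : Pool.Agent.helper53.AU.QV6_stmt :=
  Pool.Agent.helper53.AU.QV6 a53_QV4 a53_QV5

theorem a53_QR2 : Pool.Agent.helper53.AU.QR2_stmt :=
  Pool.Agent.helper53.AU.QR2 a53_QL0 a53_QL2 a53_QV4 a53_QV6 a53_QZ3 a53_QR1

theorem a53_QE1 : Pool.Agent.helper53.AU.QE1_stmt :=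
  Pool.Agent.helper53.AU.QE1 a53_QL0

theorem a53_QE2 : Pool.Agent.helper53.AU.QE2_stmt :=
  Pool.Agent.helper53.AU.QE2 a53_QE1

theorem a53_QR3 : Pool.Agent.helper53.AU.QR3_stmt :=
  Pool.Agent.helper53.AU.QR3 a53_QR1 a53_QV6

theorem a53_QR5 : Pool.Agent.helper53.AU.QR5_stmt :=
  Pool.Agent.helper53.AU.QR5 a53_QR2 a53_QR3

theorem a53_QE3 : Pool.Agent.helper53.AU.QE3_stmt :=
  Pool.Agent.helper53.AU.QE3 a53_QE1 a53_QE2 a53_QR5 a53_QV0

theorem a53_QE4 : Pool.Agent.helper53.AU.QE4_stmt :=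
  Pool.Agent.helper53.AU.QE4 a53_QV2

theorem a53_QE5 : Pool.Agent.helper53.AU.QE5_stmt :=
  Pool.Agent.helper53.AU.QE5 a53_QR5 a53_QZ3 a53_QE1 a53_QE2 a53_QE4

theorem a53_QK1 : Pool.Agent.helper53.AU.QK1_stmt :=
  Pool.Agent.helper53.AU.QK1 

theorem a53_QK2 : Pool.Agent.helper53.AU.QK2_stmt :=
  Pool.Agent.helper53.AU.QK2 a53_QK0

theorem a53_QE6 : Pool.Agent.helper53.AU.QE6_stmt :=
  Pool.Agent.helper53.AU.QE6 a53_QK1 a53_QK2

theorem a53_QA1 : Pool.Agent.helper53.AU.QA1_stmt :=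
  Pool.Agent.helper53.AU.QA1 a53_QV0 a53_QV1 a53_QR5

theorem a53_QR4 : Pool.Agent.helper53.AU.QR4_stmt :=
  Pool.Agent.helper53.AU.QR4 a53_QV1 a53_QR2 a53_QR3

theorem a53_QK4 : Pool.Agent.helper53.AU.QK4_stmt :=
  Pool.Agent.helper53.AU.QK4 a53_QL0 a53_QZ3 a53_QV4 a53_QR4 a53_QR5 a53_QA1

theorem a53_QK5 : Pool.Agent.helper53.AU.QK5_stmt :=
  Pool.Agent.helper53.AU.QK5 a53_QV1 a53_QK4

theorem a53_QA2 : Pool.Agent.helper53.AU.QA2_stmt :=
  Pool.Agent.helper53.AU.QA2 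

theorem a53_QN0 : Pool.Agent.helper53.AU.QN0_stmt :=
  Pool.Agent.helper53.AU.QN0 a53_QA2

theorem a53_QN1 : Pool.Agent.helper53.AU.QN1_stmt :=
  Pool.Agent.helper53.AU.QN1 a53_QA2

theorem a53_QD0 : Pool.Agent.helper53.AU.QD0_stmt :=
  Pool.Agent.helper53.AU.QD0 a53_QA2 a53_QZ3

theorem a53_QD1 : Pool.Agent.helper53.AU.QD1_stmt :=
  Pool.Agent.helper53.AU.QD1 a53_QV1 a53_QN0 a53_QN1 a53_QD0

theorem a53_QK3 : Pool.Agent.helper53.AU.QK3_stmt :=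
  Pool.Agent.helper53.AU.QK3 a53_QL0 a53_QK2

theorem a53_QM1 : Pool.Agent.helper53.AU.QM1_stmt :=
  Pool.Agent.helper53.AU.QM1 

theorem a53_QN2 : Pool.Agent.helper53.AU.QN2_stmt :=
  Pool.Agent.helper53.AU.QN2 a53_QV1 a53_QV4 a53_QV5 a53_QR4 a53_QM1 a53_QN1

theorem a53_QD2 : Pool.Agent.helper53.AU.QD2_stmt :=
  Pool.Agent.helper53.AU.QD2 a53_QV0 a53_QV4 a53_QR4

theorem a53_QD3 : Pool.Agent.helper53.AU.QD3_stmt :=
  Pool.Agent.helper53.AU.QD3 a53_QV4 a53_QZ3 a53_QD0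

theorem a53_QD4 : Pool.Agent.helper53.AU.QD4_stmt :=
  Pool.Agent.helper53.AU.QD4 a53_QN2 a53_QV4

theorem a53_QD5 : Pool.Agent.helper53.AU.QD5_stmt :=
  Pool.Agent.helper53.AU.QD5 

theorem a53_QD6 : Pool.Agent.helper53.AU.QD6_stmt :=
  Pool.Agent.helper53.AU.QD6 a53_QK3 a53_QK5 a53_QN0 a53_QN2 a53_QD0 a53_QD2 a53_QD3 a53_QD4 a53_QD5

theorem a53_QA3 : Pool.Agent.helper53.AU.QA3_stmt :=
  Pool.Agent.helper53.AU.QA3 a53_QA2 a53_QR3

theorem a53_QH0 : Pool.Agent.helper53.AU.QH0_stmt :=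
  Pool.Agent.helper53.AU.QH0 a53_QV1 a53_QV4 a53_QK5 a53_QD1 a53_QD6 a53_QA3

theorem a53_QH1 : Pool.Agent.helper53.AU.QH1_stmt :=
  Pool.Agent.helper53.AU.QH1 a53_QZ3 a53_QV4 a53_QV5 a53_QR5 a53_QA1 a53_QH0

theorem a53_HIL : Pool.Agent.helper53.AU.HIL_stmt :=
  Pool.Agent.helper53.AU.HIL a53_QK5

theorem a53_QH3 : Pool.Agent.helper53.AU.QH3_stmt :=
  Pool.Agent.helper53.AU.QH3 a53_HIL a53_QE1 a53_QE2 a53_QE5 a53_QF1

theorem a53_QH4 : Pool.Agent.helper53.AU.QH4_stmt :=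
  Pool.Agent.helper53.AU.QH4 a53_QR2 a53_QF11 a53_QE1 a53_QE2 a53_QE3 a53_QE4 a53_QE5 a53_QE6 a53_QH1 a53_QH3

theorem a53_QH5 : Pool.Agent.helper53.AU.QH5_stmt :=
  Pool.Agent.helper53.AU.QH5 a53_HIL a53_QV1 a53_QE1 a53_QE2 a53_QE5 a53_QE6 a53_QF1 a53_QF2 a53_QF3 a53_QF6

theorem a53_QG : Pool.Agent.helper53.AU.QG_stmt :=
  Pool.Agent.helper53.AU.QG a53_QF2 a53_QF3 a53_QF6 a53_QF7 a53_QF10 a53_QF11 a53_QH4 a53_QH5

theorem a53_GEO : Pool.Agent.helper53.AU.GEO_stmt :=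
  Pool.Agent.helper53.AU.Glue_GEO a53_QG

theorem a53_QW0 : Pool.Agent.helper53.AU.QW0_stmt :=
  Pool.Agent.helper53.AU.QW0 

theorem a53_QW1 : Pool.Agent.helper53.AU.QW1_stmt :=
  Pool.Agent.helper53.AU.QW1 a53_QW0

theorem a53_QW3 : Pool.Agent.helper53.AU.QW3_stmt :=
  Pool.Agent.helper53.AU.QW3 

theorem a53_QW4 : Pool.Agent.helper53.AU.QW4_stmt :=
  Pool.Agent.helper53.AU.QW4 a53_QW3 a53_QZ3

theorem a53_QW5 : Pool.Agent.helper53.AU.QW5_stmt :=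
  Pool.Agent.helper53.AU.QW5 a53_QA1 a53_QA2

theorem a53_QW6 : Pool.Agent.helper53.AU.QW6_stmt :=
  Pool.Agent.helper53.AU.QW6 a53_QW3 a53_QW4 a53_QW5 a53_QR2 a53_QA3

theorem a53_QW2 : Pool.Agent.helper53.AU.QW2_stmt :=
  Pool.Agent.helper53.AU.QW2 a53_QW0

theorem a53_QW9 : Pool.Agent.helper53.AU.QW9_stmt :=
  Pool.Agent.helper53.AU.QW9 

theorem a53_QW7 : Pool.Agent.helper53.AU.QW7_stmt :=
  Pool.Agent.helper53.AU.QW7 a53_QW2 a53_QW9

theorem a53_QW8 : Pool.Agent.helper53.AU.QW8_stmt :=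
  Pool.Agent.helper53.AU.QW8 a53_QW2 a53_QW9

theorem a53_QWA : Pool.Agent.helper53.AU.QWA_stmt :=
  Pool.Agent.helper53.AU.QWA 

theorem a53_QWF : Pool.Agent.helper53.AU.QWF_stmt :=
  Pool.Agent.helper53.AU.QWF a53_QW1 a53_QW6 a53_QW7 a53_QW8 a53_QW9 a53_QWA

theorem a53_LOW : Pool.Agent.helper53.AU.LOW_stmt :=
  Pool.Agent.helper53.AU.Glue_LOW a53_QWF

theorem a53_NT : Pool.Agent.helper53.AU.NT_stmt :=
  Pool.Agent.helper53.AU.NT 

theorem a53_FIN : Pool.Agent.helper53.AU.FIN_stmt :=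
  Pool.Agent.helper53.AU.FIN 

end Pool.Agent.helper53.AU.Asm
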