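import Pool.Agent.helper53.AU.SpecTop
import Pool.Agent.helper75.AU.SpecR

/-!
# Project au: the two forms of the group theoretic part agree
-/

namespace Pool.Agent.helper53.AU

theorem GrpOf (h : Pool.Agent.helper75.AU.GRP_stmt) : GRP_stmt := by
  intro k G X _ _ _ _ _ _ l hl R
  exact h k G X l R hl

end Pool.Agent.helper53.AU
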