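import Pool.Agent.helper53.AU.SpecG3
import Pool.Agent.helper53.AU.SpecTop
import Pool.Agent.helper75.AU.SpecR

/-!
# Project au: specification I (from Case I of section 6 to Theorem G; statement `IG_stmt` of SpecR)

Namespace `Pool.Agent.helper53.AU`; the definitions of helper75 are written `AUR.Six` and so on
(`namespace` abbreviation: full names `Pool.Agent.helper75.AU.Six`).
-/

namespace Pool.Agent.helper53.AU

open scoped Classical
open MulAction
open Pool.Agent.helper75.AU (ph thr K1 Six CaseI qq hh TS oo)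

noncomputable section

/-- CV1: Lemma O in the form of SpecR, from our `LO_stmt` (take `X = ⊤`). -/
def CV1_stmt : Prop := LO_stmt → Pool.Agent.helper75.AU.LO_stmt

/-- CV2: Lemma (S1) in the form of SpecR, from our `SR_stmt` (take `E = ⊥`; a transitive abelian group
of a faithful action is regular; at most one point: trivial; `r` any prime factor of the degree). -/
def CV2_stmt : Prop := SR_stmt → Pool.Agent.helper75.AU.SS1_stmt

/-- CV3: Burnside's theorem in the form of SpecR, from our `BU_stmt`. -/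
def CV3_stmt : Prop := BU_stmt → Pool.Agent.helper75.AU.BU_stmt

/-- QD: a nonabelian 2-group `S` with a unique involution `z` and a cyclic subgroup `C` of index 2 is
generalised quaternion. Proof: `|C| = 2^m`, `s ∈ S \ C` acts on `C` as `c ↦ c^k`, `k^2 = 1` mod `2^m`,
`k ≠ 1`, so `m ≥ 2` and `k = -1` or (`m ≥ 3`) `k = 2^{m-1} ± 1`. `s^2 ∈ C` is fixed by `s`. If `k = -1` or
`k = 2^{m-1} - 1`: `s^2 ∈ {1, z}`, `s^2 = z`; for `k = 2^{m-1} - 1` the element `c s` (`c` a generator) has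
square `c^{2^{m-1}} z = 1`: a second involution. If `k = 2^{m-1} + 1`: `s^2 = c^{2 j}` and
`(c^i s)^2 = c^{2 i + i 2^{m-1} + 2 j}` is `1` for `i = -j` (`j` even) or `i = -j + 2^{m-2}` (`j` odd): a second
involution. -/
def QD_stmt : Prop := ∀ (W : Type) [Group W] [Finite W] (S C : Subgroup W) (z : W), IsPGroup 2 S →
  C ≤ S → IsCyclic C → Nat.card S = 2 * Nat.card C → (∀ s ∈ S, IsInv s ↔ s = z) → z ∈ S →
  (∃ a ∈ S, ∃ b ∈ S, a * b ≠ b * a) →
  4 ∣ Nat.card C ∧ ∀ s ∈ S, s ∉ C → s * s = z ∧ ∀ c ∈ C, s * c * s⁻¹ = c⁻¹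

/-- NQ: a group generated by 3-elements has no proper normal subgroup of index `r^n`, `r ≠ 3` prime. -/
def NQ_stmt : Prop := ∀ (L : Type) [Group L] [Finite L], GenThree L → NoQuot L

/-- the image of `G_1 = thr G` in the image of `G` in `Perm (Sylow 3 G)` -/
def LI (G : Type) [Group G] : Subgroup (ph G).range := (thr G).map (ph G).rangeRestrict

/-- the image of `⟨c⟩` -/
def AI (G : Type) [Group G] (c : G) : Subgroup (LI G) :=
  (Subgroup.zpowers ((ph G).rangeRestrict c)).subgroupOf (LI G)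

/-- IA: the involutions of `G_1`. `z = c^{e'/2}` has order 2 and lies in `K_1` (it fixes all Sylow
3-subgroups). An involution of `G_1` fixes a point (F3b of SpecR); the stabilisers in `G_1` of the points of
`orbit G x` have the odd order `q h'`, so it is conjugate in `G` (even by `trx`, `try'` in `G_1`) to an element of
`P_y ⟨c⟩`, whose Sylow 2-subgroups are conjugate to a subgroup of `⟨c⟩`, so it is conjugate to `z`. -/
def IA_stmt : Prop := ∀ (k G X : Type) [Field k] [CharP k 3] [Group G] [Fintype G] [MulAction G X]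
  [Fintype X] (l : ℕ) (R : Ram k G X (l + 1)) (x y : X) (c : G) (u h' e' u₁ : ℕ), Special l →
  Six R x y c u h' e' u₁ → CaseI G c h' e' u₁ →
  IsInv (c ^ (e' / 2)) ∧ c ^ (e' / 2) ∈ K1 G ∧ (∀ t ∈ thr G, t * t = 1 → t ∈ K1 G) ∧
  Nat.card (K1 G) = 2 * Nat.card (K1 G ⊓ R.P x : Subgroup G)

/-- IB: the dihedral witness upstairs. Let `S` be a Sylow 2-subgroup of `G_1` containing the 2-part `C_2` of
`⟨c⟩`: `|S| = 2 |C_2|` (`|G_1| = 2 q e' h'`), `S ∩ K_1 = {1, z}` (IA: `K_1` has a Sylow 2-subgroup of order 2), so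
`z` is the only involution of `S` (IA), `z ∈ S'` (field `k1t`), so `S` is not abelian: QD. Take `s ∈ S \ C_2`. If
`s c^n ∈ K_1`, the image of `s` is in the 2-part of the image of `⟨c⟩`: `s c_2 ∈ K_1 ∩ S ≤ C_2` for some `c_2 ∈ C_2`. -/
def IB_stmt : Prop := ∀ (k G X : Type) [Field k] [CharP k 3] [Group G] [Fintype G] [MulAction G X]
  [Fintype X] (l : ℕ) (R : Ram k G X (l + 1)) (x y : X) (c : G) (u h' e' u₁ : ℕ), Special l →
  Six R x y c u h' e' u₁ → CaseI G c h' e' u₁ →
  4 ∣ e' ∧ ∃ s ∈ thr G, s * s = c ^ (e' / 2) ∧ (∀ n : ℕ, s * c ^ n ∉ K1 G) ∧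
    ∀ n : ℕ, (∃ j : ℕ, (c ^ n) ^ (2 ^ j) = 1) → s * c ^ n * s⁻¹ = (c ^ n)⁻¹

/-- IC: orders and point stabilisers of `L = LI G` on `Sylow 3 G`. `|L| = |G_1| / |K_1|`, and the stabiliser of the
point `P_x` is the image of `N_{G_1}(P_x) = B_1 ⟨z⟩` (`B_1 = G_x ∩ G_1` has odd order and index 2), so of
`B_1 = P_x : ⟨c₁⟩` (BA2). Transitivity: all Sylow 3-subgroups of `G` are Sylow 3-subgroups of `G_1`. -/
def IC_stmt : Prop := ∀ (k G X : Type) [Field k] [CharP k 3] [Group G] [Fintype G] [MulAction G X]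
  [Fintype X] (l : ℕ) (R : Ram k G X (l + 1)) (x y : X) (c : G) (u h' e' u₁ : ℕ), Special l →
  Six R x y c u h' e' u₁ → CaseI G c h' e' u₁ →
  ∃ a : ℕ, 3 ^ a * Nat.card (K1 G ⊓ R.P x : Subgroup G) = qq R x ∧
    (∀ S : Sylow 3 G, Nat.card (stabilizer (LI G) S) = 3 ^ a * h') ∧
    (∀ S : Sylow 3 G, ThreeCyc (stabilizer (LI G) S)) ∧ IsPretransitive (LI G) (Sylow 3 G)

/-- ID: `(LI G, Sylow 3 G, AI G c)` is in the class PL (IA, IB, IC, NQ, IE). -/
def ID_stmt : Prop := ∀ (k G X : Type) [Field k] [CharP k 3] [Group G] [Fintype G] [MulAction G X]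
  [Fintype X] (l : ℕ) (R : Ram k G X (l + 1)) (x y : X) (c : G) (u h' e' u₁ : ℕ), Special l →
  Six R x y c u h' e' u₁ → CaseI G c h' e' u₁ → PL (LI G) (Sylow 3 G) (AI G c)

/-- IE: `L = LI G` is normal, generated by 3-elements, `[Γ, L] = L` (images of the corresponding facts on `G_1`). -/
def IE_stmt : Prop := ∀ (G : Type) [Group G] [Finite G], (LI G).Normal ∧ GenThree (LI G) ∧
  (⁅(⊤ : Subgroup G), thr G⁆ = thr G → ⁅(⊤ : Subgroup (ph G).range), LI G⁆ = LI G)

/-- IF: `|Omega| = 4` is impossible. `L` acts faithfully on 4 points, so `3^a h'` divides 6, is odd, `h'` is prime to 3: `h' = 1`,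
`3^a = 3` (`3^a = 1` would make `P_x` normal). `Q = K_1 ∩ P_x` has index 3 in `P_x` and is normal in `G`: C4 of SpecR gives
`q h + q ≤ 3 T + 3`; `|O| = 8`, `q_y |O_y| = 2 q`, `N = 8 q h > 8 (l+1)`, `8 T ≤ 2 l + 8 + 2 q`: so `q h + q ≤ 18`. -/
def IF_stmt : Prop := ∀ (k G X : Type) [Field k] [CharP k 3] [Group G] [Fintype G] [MulAction G X]
  [Fintype X] (l : ℕ) (R : Ram k G X (l + 1)) (x y : X) (c : G) (u h' e' u₁ : ℕ), Special l →
  Six R x y c u h' e' u₁ → CaseI G c h' e' u₁ → e' ≠ 4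

/-- IG: helper75's `IG_stmt`, from IC, ID, IE, IF, RS, TG and F2 of SpecR (`q ≤ l + 2`):
`3^a h' = 3^m (3^m-1)/2`, `h'` prime to 3, so `3^a = 3^m`, `2 h' + 1 = 3^m`. -/
def IGG_stmt : Prop := Pool.Agent.helper75.AU.IG_stmt

/-- the two forms of the group theoretic part agree -/
theorem GRP_of (h : Pool.Agent.helper75.AU.GRP_stmt) : GRP_stmt := by
  intro k G X _ _ _ _ _ _ l hl R
  exact h k G X l R hl

end

end Pool.Agent.helper53.AU
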